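import Mathlib

set_option autoImplicit false

/-!
# MP_d70b2d_gt: Clifford operators

Left and right multiplications of the Clifford algebra of nine-dimensional Euclidean space,
realised as operators on `V = ℝ^(2^9)`.
-/

namespace Pool.Agent.MP_d70b2d_gt

open scoped InnerProductSpace

/-- Subsets of nine elements. -/
abbrev G := Fin 9 → ZMod 2

/-- The underlying space of the Clifford algebra. -/
abbrev V := EuclideanSpace ℝ G

/-- The bilinear cocycle. -/
def β (g h : G) : ZMod 2 := ∑ i, ∑ j, if j < i then g i * h j else 0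

/-- The sign. -/
noncomputable def sg (a : ZMod 2) : ℝ := if a = 0 then 1 else -1

/-- Parity. -/
def par (g : G) : ZMod 2 := ∑ i, g i

/-- Generators. -/
def δ (j : Fin 9) : G := Pi.single j 1

lemma β_add_left (g g' h : G) : β (g + g') h = β g h + β g' h := by
  simp only [β, ← Finset.sum_add_distrib]
  refine Finset.sum_congr rfl fun i _ => Finset.sum_congr rfl fun j _ => ?_
  split_ifs <;> simp [add_mul]

lemma β_add_right (g h h' : G) : β g (h + h') = β g h + β g h' := by
  simp only [β, ← Finset.sum_add_distrib]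
  refine Finset.sum_congr rfl fun i _ => Finset.sum_congr rfl fun j _ => ?_
  split_ifs <;> simp [mul_add]

lemma β_zero_left (h : G) : β 0 h = 0 := by simp [β]

lemma β_zero_right (h : G) : β h 0 = 0 := by simp [β]

lemma β_δ_δ (i j : Fin 9) : β (δ i) (δ j) = if j < i then 1 else 0 := by
  revert i j; decide

lemma par_add (g h : G) : par (g + h) = par g + par h := by
  simp [par, Finset.sum_add_distrib]

lemma par_δ (j : Fin 9) : par (δ j) = 1 := by
  revert j; decide

lemma sg_zero : sg 0 = 1 := by simp [sg]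

lemma sg_one : sg 1 = -1 := by simp [sg]

lemma sg_add (a b : ZMod 2) : sg (a + b) = sg a * sg b := by
  have h : ∀ a : ZMod 2, a = 0 ∨ a = 1 := by decide
  rcases h a with rfl | rfl <;> rcases h b with rfl | rfl
  · simp [sg]
  · simp [sg]
  · simp [sg]
  · have : (1 : ZMod 2) + 1 = 0 := by decide
    simp [sg, this]

lemma sg_mul_self (a : ZMod 2) : sg a * sg a = 1 := by
  rw [← sg_add]
  have : a + a = 0 := by revert a; decide
  rw [this, sg_zero]

lemma add_self_G (g : G) : g + g = 0 := by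
  funext i
  have : ∀ a : ZMod 2, a + a = 0 := by decide
  exact this _

/-- Right multiplication. -/
noncomputable def R (g : G) : V →ₗ[ℝ] V where
  toFun x := WithLp.toLp 2 (fun k => sg (β (k + g) g) * x (k + g))
  map_add' x y := by
    ext k
    simp [mul_add]
  map_smul' c x := by
    ext k
    simp; ring

/-- Left multiplication by a generator. -/
noncomputable def Lb (j : Fin 9) : V →ₗ[ℝ] V where
  toFun x := WithLp.toLp 2 (fun k => sg (β (δ j) (k + δ j)) * x (k + δ j))
  map_add' x y := by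
    ext k
    simp [mul_add]
  map_smul' c x := by
    ext k
    simp; ring

/-- The grading operator. -/
noncomputable def Pi' : V →ₗ[ℝ] V where
  toFun x := WithLp.toLp 2 (fun k => sg (par k) * x k)
  map_add' x y := by
    ext k
    simp [mul_add]
  map_smul' c x := by
    ext k
    simp; ring

lemma R_apply (g : G) (x : V) (k : G) : R g x k = sg (β (k + g) g) * x (k + g) := rfl

lemma Lb_apply (j : Fin 9) (x : V) (k : G) :
    Lb j x k = sg (β (δ j) (k + δ j)) * x (k + δ j) := rfl

lemma Pi'_apply (x : V) (k : G) : Pi' x k = sg (par k) * x k := rfl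

/-- Left and right multiplications commute. -/
lemma Lb_R (j : Fin 9) (g : G) (x : V) : Lb j (R g x) = R g (Lb j x) := by
  ext k
  rw [Lb_apply, R_apply, R_apply, Lb_apply, ← mul_assoc, ← mul_assoc, ← sg_add, ← sg_add]
  have e1 : k + δ j + g = k + g + δ j := by abel
  rw [e1]
  have e2 : β (δ j) (k + δ j) + β (k + g + δ j) g = β (k + g) g + β (δ j) (k + g + δ j) := by
    simp only [β_add_left, β_add_right]
    ring
  rw [e2]

lemma Lb_Lb_self (j : Fin 9) (x : V) : Lb j (Lb j x) = x := by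
  ext k
  rw [Lb_apply, Lb_apply, ← mul_assoc, ← sg_add]
  have e1 : k + δ j + δ j = k := by rw [add_assoc, add_self_G, add_zero]
  rw [e1]
  have : β (δ j) (k + δ j) + β (δ j) k = 0 := by
    rw [β_add_right, β_δ_δ]
    have : ∀ a : ZMod 2, a + a = 0 := by decide
    simp [this]
  rw [this, sg_zero, one_mul]

lemma ite_lt_ne : ∀ i j : Fin 9, i ≠ j →
    (if i < j then (1 : ZMod 2) else 0) = (if j < i then (1 : ZMod 2) else 0) + 1 := by
  decide

lemma Lb_Lb_ne (i j : Fin 9) (hij : i ≠ j) (x : V) : Lb i (Lb j x) = - Lb j (Lb i x) := by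
  ext k
  have h2 : (- Lb j (Lb i x)) k = - (Lb j (Lb i x) k) := rfl
  rw [h2]
  rw [Lb_apply, Lb_apply, Lb_apply, Lb_apply, ← mul_assoc, ← mul_assoc, ← sg_add, ← sg_add]
  have e1 : k + δ i + δ j = k + δ j + δ i := by abel
  rw [e1]
  have e2 : β (δ i) (k + δ i) + β (δ j) (k + δ j + δ i) =
      (β (δ j) (k + δ j) + β (δ i) (k + δ j + δ i)) + 1 := by
    simp only [β_add_right, β_δ_δ]
    have key : (if i < j then (1 : ZMod 2) else 0) = (if j < i then (1 : ZMod 2) else 0) + 1 :=
      ite_lt_ne i j hij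
    rw [key]
    have h0 : ∀ a : ZMod 2, a + a = 0 := by decide
    simp only [lt_irrefl, if_false]
    ring
  rw [e2, sg_add _ 1, sg_one]
  ring

lemma R_R (g h : G) (x : V) : R g (R h x) = sg (β h g) • R (g + h) x := by
  ext k
  have h2 : (sg (β h g) • R (g + h) x) k = sg (β h g) * (R (g + h) x k) := rfl
  rw [h2, R_apply, R_apply, R_apply, ← mul_assoc, ← mul_assoc, ← sg_add, ← sg_add, ← add_assoc]
  have h0 : ∀ a : ZMod 2, a + a = 0 := by decide
  have e2 : β (k + g) g + β (k + g + h) h = β h g + β (k + g + h) (g + h) := by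
    simp only [β_add_left, β_add_right]
    linear_combination - h0 (β h g)
  rw [e2]

lemma R_zero (x : V) : R 0 x = x := by
  ext k
  rw [R_apply, β_zero_right, sg_zero, one_mul, add_zero]

lemma R_comm (g h : G) (x : V) : R g (R h x) = sg (β h g + β g h) • R h (R g x) := by
  rw [R_R, R_R, smul_smul, sg_add, add_comm h g, mul_assoc, sg_mul_self, mul_one]

lemma inner_V (x y : V) : ⟪x, y⟫_ℝ = ∑ k, x k * y k := by
  rw [PiLp.inner_apply]
  refine Finset.sum_congr rfl fun k _ => ?_
  simp [mul_comm]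

lemma R_inner (g : G) (x y : V) : ⟪R g x, y⟫_ℝ = sg (β g g) * ⟪x, R g y⟫_ℝ := by
  rw [inner_V, inner_V, Finset.mul_sum]
  rw [← Equiv.sum_comp (Equiv.addRight g)]
  refine Finset.sum_congr rfl fun k _ => ?_
  rw [Equiv.coe_addRight, R_apply, R_apply]
  have e1 : k + g + g = k := by rw [add_assoc, add_self_G, add_zero]
  rw [e1, β_add_left, sg_add]
  have := sg_mul_self (β g g)
  linear_combination (- (sg (β k g) * x k * y (k + g))) * this

lemma R_norm (g : G) (x : V) : ‖R g x‖ = ‖x‖ := by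
  have h1 : ‖R g x‖ ^ 2 = ‖x‖ ^ 2 := by
    rw [← real_inner_self_eq_norm_sq, ← real_inner_self_eq_norm_sq, R_inner, R_R, inner_smul_right,
      ← mul_assoc, sg_mul_self, one_mul, add_self_G, R_zero]
  exact (sq_eq_sq₀ (norm_nonneg _) (norm_nonneg _)).1 h1

lemma Lb_inner (j : Fin 9) (x y : V) : ⟪Lb j x, y⟫_ℝ = ⟪x, Lb j y⟫_ℝ := by
  rw [inner_V, inner_V]
  rw [← Equiv.sum_comp (Equiv.addRight (δ j))]
  refine Finset.sum_congr rfl fun k _ => ?_
  rw [Equiv.coe_addRight, Lb_apply, Lb_apply]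
  have e1 : k + δ j + δ j = k := by rw [add_assoc, add_self_G, add_zero]
  rw [e1, β_add_right, β_δ_δ]
  simp
  ring

lemma Pi'_inner (x y : V) : ⟪Pi' x, y⟫_ℝ = ⟪x, Pi' y⟫_ℝ := by
  rw [inner_V, inner_V]
  refine Finset.sum_congr rfl fun k _ => ?_
  rw [Pi'_apply, Pi'_apply]
  ring

lemma Pi'_R (g : G) (x : V) : Pi' (R g x) = sg (par g) • R g (Pi' x) := by
  ext k
  have h2 : (sg (par g) • R g (Pi' x)) k = sg (par g) * (R g (Pi' x) k) := rfl
  rw [h2, Pi'_apply, R_apply, R_apply, Pi'_apply, par_add, sg_add]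
  have := sg_mul_self (par g)
  linear_combination (- (sg (β (k + g) g) * sg (par k) * x (k + g))) * this

lemma Pi'_Lb (j : Fin 9) (x : V) : Pi' (Lb j x) = - Lb j (Pi' x) := by
  ext k
  have h2 : (- Lb j (Pi' x)) k = - (Lb j (Pi' x) k) := rfl
  rw [h2, Pi'_apply, Lb_apply, Lb_apply, Pi'_apply, par_add, par_δ, sg_add _ 1, sg_one]
  ring

/-- Left multiplication by a vector. -/
noncomputable def L (w : EuclideanSpace ℝ (Fin 9)) : V →ₗ[ℝ] V := ∑ j, w j • Lb j

lemma L_apply (w : EuclideanSpace ℝ (Fin 9)) (x : V) : L w x = ∑ j, w j • Lb j x := by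
  simp [L, LinearMap.sum_apply]

lemma L_R (w : EuclideanSpace ℝ (Fin 9)) (g : G) (x : V) : L w (R g x) = R g (L w x) := by
  simp only [L_apply, map_sum, map_smul, Lb_R]

lemma L_inner (w : EuclideanSpace ℝ (Fin 9)) (x y : V) : ⟪L w x, y⟫_ℝ = ⟪x, L w y⟫_ℝ := by
  simp only [L_apply, sum_inner, inner_sum, inner_smul_left, inner_smul_right, Lb_inner]
  simp

lemma Pi'_L (w : EuclideanSpace ℝ (Fin 9)) (x : V) : Pi' (L w x) = - L w (Pi' x) := by
  simp only [L_apply, map_sum, map_smul, Pi'_Lb, smul_neg, Finset.sum_neg_distrib]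

lemma L_add (w w' : EuclideanSpace ℝ (Fin 9)) (x : V) : L (w + w') x = L w x + L w' x := by
  simp [L_apply, add_smul, Finset.sum_add_distrib]

lemma L_smul (c : ℝ) (w : EuclideanSpace ℝ (Fin 9)) (x : V) : L (c • w) x = c • L w x := by
  simp [L_apply, Finset.smul_sum, smul_smul]

lemma L_sub (w w' : EuclideanSpace ℝ (Fin 9)) (x : V) : L (w - w') x = L w x - L w' x := by
  simp [L_apply, sub_smul, Finset.sum_sub_distrib]

/-- The Clifford relation. -/
lemma L_L (v w : EuclideanSpace ℝ (Fin 9)) (x : V) :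
    L v (L w x) + L w (L v x) = (2 * ⟪v, w⟫_ℝ) • x := by
  have key : ∀ i j : Fin 9, Lb i (Lb j x) + Lb j (Lb i x) = if i = j then (2 : ℝ) • x else 0 := by
    intro i j
    split_ifs with h
    · subst h; rw [Lb_Lb_self, two_smul]
    · rw [Lb_Lb_ne i j h]; simp
  have e1 : L v (L w x) = ∑ i, ∑ j, (v i * w j) • Lb i (Lb j x) := by
    rw [L_apply]
    refine Finset.sum_congr rfl fun i _ => ?_
    rw [L_apply, map_sum, Finset.smul_sum]
    refine Finset.sum_congr rfl fun j _ => ?_
    rw [map_smul, smul_smul]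
  have e2 : L w (L v x) = ∑ i, ∑ j, (v i * w j) • Lb j (Lb i x) := by
    rw [L_apply, Finset.sum_comm]
    refine Finset.sum_congr rfl fun i _ => ?_
    rw [L_apply, map_sum, Finset.smul_sum]
    refine Finset.sum_congr rfl fun j _ => ?_
    rw [map_smul, smul_smul, mul_comm]
  rw [e1, e2, ← Finset.sum_add_distrib]
  simp only [← Finset.sum_add_distrib, ← smul_add, key]
  simp only [smul_ite, smul_zero, Finset.sum_ite_eq, Finset.mem_univ, if_true]
  rw [PiLp.inner_apply, Finset.mul_sum, Finset.sum_smul]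
  refine Finset.sum_congr rfl fun i _ => ?_
  rw [smul_smul]
  have : v.ofLp i * w.ofLp i * 2 = 2 * inner ℝ (v.ofLp i) (w.ofLp i) := by
    simp
    ring
  rw [this]

lemma L_norm (w : EuclideanSpace ℝ (Fin 9)) (x : V) : ‖L w x‖ = ‖w‖ * ‖x‖ := by
  have h1 : L w (L w x) = (‖w‖ ^ 2) • x := by
    have := L_L w w x
    rw [← two_smul ℝ, real_inner_self_eq_norm_sq, mul_smul] at this
    exact smul_right_injective V (two_ne_zero) this
  have h2 : ‖L w x‖ ^ 2 = (‖w‖ * ‖x‖) ^ 2 := by
    rw [← real_inner_self_eq_norm_sq, L_inner, h1, inner_smul_right, real_inner_self_eq_norm_sq,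
      mul_pow]
  exact (sq_eq_sq₀ (norm_nonneg _) (by positivity)).1 h2

end Pool.Agent.MP_d70b2d_gt
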