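import Mathlib

set_option autoImplicit false

/-!
# MP_d70b2d_gt: continuous Gram-Schmidt (helper53)
-/

namespace Pool.Agent.MP_d70b2d_gt

open InnerProductSpace

/-- the recursion formula of the Gram-Schmidt process -/
theorem gs_rec {n m : ℕ} (f : Fin m → EuclideanSpace ℝ (Fin n)) (j : Fin m) :
    gramSchmidt ℝ f j = f j - ∑ i ∈ Finset.Iio j,
      (inner ℝ (gramSchmidt ℝ f i) (f j) / ‖gramSchmidt ℝ f i‖ ^ 2) • gramSchmidt ℝ f i := by
  have h := gramSchmidt_def'' ℝ f j
  rw [eq_sub_iff_add_eq]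
  exact h.symm

/-- continuity of the unnormalised vectors -/
theorem gs_cont {n m : ℕ} {X : Type*} [TopologicalSpace X]
    (w : Fin m → X → EuclideanSpace ℝ (Fin n)) (S : Set X)
    (hc : ∀ j, ContinuousOn (w j) S)
    (hli : ∀ x ∈ S, LinearIndependent ℝ (fun j => w j x)) (j : Fin m) :
    ContinuousOn (fun x => gramSchmidt ℝ (fun j => w j x) j) S := by
  induction j using WellFoundedLT.induction with
  | _ j ih =>
    have e : (fun x => gramSchmidt ℝ (fun j => w j x) j) = fun x => w j x - ∑ i ∈ Finset.Iio j,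
        (inner ℝ (gramSchmidt ℝ (fun j => w j x) i) (w j x) /
          ‖gramSchmidt ℝ (fun j => w j x) i‖ ^ 2) • gramSchmidt ℝ (fun j => w j x) i := by
      funext x
      exact gs_rec _ j
    rw [e]
    refine (hc j).sub (continuousOn_finsetSum _ fun i hi => ?_)
    have hi' := ih i (Finset.mem_Iio.1 hi)
    refine ContinuousOn.smul (ContinuousOn.div (hi'.inner (hc j)) (hi'.norm.pow 2) ?_) hi'
    intro x hx
    exact pow_ne_zero 2 (norm_ne_zero_iff.2 (gramSchmidt_ne_zero (𝕜 := ℝ) i (hli x hx)))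

/-- equivariance of the unnormalised vectors -/
theorem gs_equi {n m : ℕ} (f g : Fin m → EuclideanSpace ℝ (Fin n)) (ε : Fin m → ℝ)
    (hε : ∀ j, ε j = 1 ∨ ε j = -1) (h : ∀ j, g j = ε j • f j) (j : Fin m) :
    gramSchmidt ℝ g j = ε j • gramSchmidt ℝ f j := by
  induction j using WellFoundedLT.induction with
  | _ j ih =>
    rw [gs_rec g j, gs_rec f j, smul_sub, ← h j, Finset.smul_sum]
    congr 1
    refine Finset.sum_congr rfl fun i hi => ?_
    rw [ih i (Finset.mem_Iio.1 hi), h j, inner_smul_left, inner_smul_right, norm_smul, smul_smul,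
      smul_smul]
    congr 1
    rcases hε i with hi' | hi' <;> rw [hi'] <;> simp <;> ring

/-- Gram-Schmidt depends continuously on a linearly independent family and commutes with
sign changes of the vectors.
Proof: take `o j x = InnerProductSpace.gramSchmidtNormed ℝ (fun j => w j x) j`; continuity and
equivariance by strong induction on `j` from `gramSchmidt_def`. -/
theorem gs_frames {n m : ℕ} {X : Type*} [TopologicalSpace X]
    (w : Fin m → X → EuclideanSpace ℝ (Fin n)) (S : Set X)
    (hc : ∀ j, ContinuousOn (w j) S)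
    (hli : ∀ x ∈ S, LinearIndependent ℝ (fun j => w j x)) :
    ∃ o : Fin m → X → EuclideanSpace ℝ (Fin n),
      (∀ j, ContinuousOn (o j) S) ∧
      (∀ x ∈ S, Orthonormal ℝ (fun j => o j x)) ∧
      (∀ x ∈ S, ∀ y ∈ S, ∀ ε : Fin m → ℝ, (∀ j, ε j = 1 ∨ ε j = -1) →
        (∀ j, w j y = ε j • w j x) → ∀ j, o j y = ε j • o j x) := by
  refine ⟨fun j x => ‖gramSchmidt ℝ (fun j => w j x) j‖⁻¹ • gramSchmidt ℝ (fun j => w j x) j,
    fun j => ?_, fun x hx => ?_, fun x hx y hy ε hε h j => ?_⟩
  · have h := gs_cont w S hc hli j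
    refine ContinuousOn.smul (ContinuousOn.inv₀ h.norm fun x hx => ?_) h
    exact norm_ne_zero_iff.2 (gramSchmidt_ne_zero (𝕜 := ℝ) j (hli x hx))
  · exact gramSchmidtNormed_orthonormal (hli x hx)
  · have he := gs_equi (fun j => w j x) (fun j => w j y) ε hε h j
    beta_reduce
    rw [he, norm_smul, smul_smul, smul_smul]
    congr 1
    rcases hε j with hj | hj <;> rw [hj] <;> simp

end Pool.Agent.MP_d70b2d_gt
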