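import Mathlib

set_option autoImplicit false

/-!
# MP_d70b2d_gt: lifting argument
-/

namespace Pool.Agent.MP_d70b2d_gt

open Complex unitInterval

lemma exists_log_homotopy {A : Type*} [TopologicalSpace A] (f : I × A → ℂ) (hf : Continuous f)
    (h0 : ∀ p, f p ≠ 0) (h1 : ∀ a, f (0, a) = 1) :
    ∃ F : I × A → ℂ, Continuous F ∧ (∀ p, exp (F p) = f p) ∧ ∀ a, F (0, a) = 0 := by
  let H : C(I × A, {z : ℂ // z ≠ 0}) := ⟨fun p => ⟨f p, h0 p⟩, by fun_prop⟩
  let g : C(A, ℂ) := ContinuousMap.const A 0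
  have hH : ∀ a, H (0, a) = (fun z : ℂ ↦ (⟨_, z.exp_ne_zero⟩ : {z : ℂ // z ≠ 0})) (g a) := by
    intro a
    apply Subtype.ext
    change f (0, a) = exp 0
    rw [h1, exp_zero]
  refine ⟨Complex.isCoveringMap_exp.liftHomotopy H g hH, ContinuousMap.continuous _, ?_, ?_⟩
  · intro p
    have := congrFun (Complex.isCoveringMap_exp.liftHomotopy_lifts H g hH) p
    exact congrArg Subtype.val this
  · intro a
    exact Complex.isCoveringMap_exp.liftHomotopy_zero H g hH a

lemma exp_const {A : Type*} [TopologicalSpace A] [PreconnectedSpace A] (g : A → ℂ)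
    (hg : Continuous g) (w : ℂ) (hw : ∀ a, exp (g a) = w) (a b : A) : g a = g b := by
  have h := Complex.isCoveringMap_exp.eq_of_comp_eq hg (continuous_const (y := g b))
    (by
      funext x
      apply Subtype.ext
      change exp (g x) = exp (g b)
      rw [hw, hw]) b rfl
  exact congrFun h a

theorem no_ab (a : ℂ → ℂ) (b : ℝ → ℂ → ℂ) (κ : ℂ)
    (ha : ContinuousOn a (Metric.closedBall 0 1))
    (ha0 : ∀ z ∈ Metric.closedBall (0 : ℂ) 1, a z ≠ 0)
    (hb : ContinuousOn (fun p : ℝ × ℂ => b p.1 p.2) (Set.Icc 0 1 ×ˢ Metric.sphere 0 1))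
    (hb0 : ∀ θ ∈ Set.Icc (0 : ℝ) 1, ∀ z ∈ Metric.sphere (0 : ℂ) 1, b θ z ≠ 0)
    (h1 : ∀ θ ∈ Set.Icc (0 : ℝ) 1, ∀ z ∈ Metric.sphere (0 : ℂ) 1, b θ z * b θ (-z) = κ)
    (h2 : ∀ z ∈ Metric.sphere (0 : ℂ) 1, a (-z) * b 0 z = - (b 1 z * a z)) : False := by
  have hI : ∀ t : I, (t : ℝ) ∈ Set.Icc (0 : ℝ) 1 := fun t => t.2
  have hI0 : (0 : ℝ) ∈ Set.Icc (0 : ℝ) 1 := by simp
  have hI1 : (1 : ℝ) ∈ Set.Icc (0 : ℝ) 1 := by simp
  have hneg : ∀ z ∈ Metric.sphere (0 : ℂ) 1, -z ∈ Metric.sphere (0 : ℂ) 1 := by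
    intro z hz
    simpa using hz
  have hsb : ∀ z ∈ Metric.sphere (0 : ℂ) 1, z ∈ Metric.closedBall (0 : ℂ) 1 :=
    fun z hz => Metric.sphere_subset_closedBall hz
  -- logarithm of a
  have hrz : ∀ p : I × Metric.closedBall (0 : ℂ) 1,
      ((p.1 : ℝ) : ℂ) * (p.2 : ℂ) ∈ Metric.closedBall (0 : ℂ) 1 := by
    intro p
    have h3 : ‖(p.2 : ℂ)‖ ≤ 1 := mem_closedBall_zero_iff.1 p.2.2
    have h4 : |(p.1 : ℝ)| ≤ 1 := by
      rw [abs_of_nonneg p.1.2.1]; exact p.1.2.2
    have : ‖((p.1 : ℝ) : ℂ) * (p.2 : ℂ)‖ ≤ 1 := by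
      rw [norm_mul, Complex.norm_real, Real.norm_eq_abs]
      exact mul_le_one₀ h4 (norm_nonneg _) h3
    simpa using this
  have h00 : (0 : ℂ) ∈ Metric.closedBall (0 : ℂ) 1 := by simp
  obtain ⟨FA, hFAc, hFA, hFA0⟩ := exists_log_homotopy
    (A := Metric.closedBall (0 : ℂ) 1)
    (fun p => a (((p.1 : ℝ) : ℂ) * (p.2 : ℂ)) / a 0)
    (by
      refine Continuous.div_const ?_ _
      exact ha.comp_continuous (by fun_prop) hrz)
    (fun p => div_ne_zero (ha0 _ (hrz p)) (ha0 _ h00))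
    (fun p => by simp [ha0 0 h00])
  -- logarithm of b
  obtain ⟨FB, hFBc, hFB, hFB0⟩ := exists_log_homotopy
    (A := Metric.sphere (0 : ℂ) 1)
    (fun p => b p.1 p.2 / b 0 p.2)
    (by
      refine Continuous.div ?_ ?_ (fun p => hb0 0 hI0 _ p.2.2)
      · exact hb.comp_continuous (f := fun p : I × Metric.sphere (0 : ℂ) 1 => ((p.1 : ℝ), (p.2 : ℂ)))
          (by fun_prop) (fun p => ⟨hI p.1, p.2.2⟩)
      · exact hb.comp_continuous (f := fun p : I × Metric.sphere (0 : ℂ) 1 => ((0 : ℝ), (p.2 : ℂ)))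
          (by fun_prop) (fun p => ⟨hI0, p.2.2⟩))
    (fun p => div_ne_zero (hb0 _ (hI p.1) _ p.2.2) (hb0 _ hI0 _ p.2.2))
    (fun p => by simp [hb0 0 hI0 _ p.2])
  -- points of the circle
  let z : I → Metric.sphere (0 : ℂ) 1 := fun s => ⟨exp ((Real.pi * s : ℝ) * Complex.I),
    mem_sphere_zero_iff_norm.2 (Complex.norm_exp_ofReal_mul_I _)⟩
  have hz : Continuous z := by
    refine Continuous.subtype_mk ?_ _
    fun_prop
  let nz : Metric.sphere (0 : ℂ) 1 → Metric.sphere (0 : ℂ) 1 := fun z => ⟨-z, hneg _ z.2⟩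
  have hnz : Continuous nz := by
    refine Continuous.subtype_mk ?_ _
    fun_prop
  let cb : Metric.sphere (0 : ℂ) 1 → Metric.closedBall (0 : ℂ) 1 := fun z => ⟨z, hsb _ z.2⟩
  have hcb : Continuous cb := by
    refine Continuous.subtype_mk ?_ _
    fun_prop
  let c : Metric.sphere (0 : ℂ) 1 → ℂ := fun z => FB (1, z) - FA (1, cb (nz z)) + FA (1, cb z)
  have hc : Continuous c := by
    refine ((hFBc.comp (by fun_prop)).sub (hFAc.comp ?_)).add (hFAc.comp ?_)
    · exact Continuous.prodMk continuous_const (hcb.comp hnz)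
    · exact Continuous.prodMk continuous_const hcb
  have hexp : ∀ z, exp (c z) = -1 := by
    intro z
    have e1 := hFB (1, z)
    have e2 := hFA (1, cb (nz z))
    have e3 := hFA (1, cb z)
    have e4 := h2 z z.2
    have n0 := hb0 0 hI0 z z.2
    have n1 := ha0 z (hsb z z.2)
    have n2 := ha0 0 h00
    have n3 := ha0 (-z) (hsb _ (hneg z z.2))
    simp only [Set.Icc.coe_one, ofReal_one, one_mul] at e1 e2 e3
    change exp (FB (1, z) - FA (1, cb (nz z)) + FA (1, cb z)) = -1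
    rw [exp_add, exp_sub, e1, e2, e3]
    change b 1 z / b 0 z / (a (-z) / a 0) * (a z / a 0) = -1
    field_simp
    linear_combination e4
  have hodd : ∀ z, c (nz z) = - c z := by
    intro z
    have hnn : nz (nz z) = z := Subtype.ext (neg_neg _)
    have hB : FB (1, nz z) + FB (1, z) = 0 := by
      have h5 := exp_const (A := I) (fun t => FB (t, nz z) + FB (t, z))
        ((hFBc.comp (by fun_prop)).add (hFBc.comp (by fun_prop))) 1
        (by
          intro t
          rw [exp_add, hFB, hFB]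
          change b t (-z) / b 0 (-z) * (b t z / b 0 z) = 1
          have e1 := h1 t (hI t) z z.2
          have e2 := h1 0 hI0 z z.2
          have n0 := hb0 0 hI0 z z.2
          have n1 := hb0 0 hI0 (-z) (hneg z z.2)
          field_simp
          linear_combination e1 - e2) 1 0
      simpa [hFB0] using h5
    change FB (1, nz z) - FA (1, cb (nz (nz z))) + FA (1, cb (nz z)) =
      - (FB (1, z) - FA (1, cb (nz z)) + FA (1, cb z))
    rw [hnn]
    linear_combination hB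
  have hconst := exp_const (A := I) (fun s => c (z s)) (hc.comp hz) (-1) (fun s => hexp _) 1 0
  have hz1 : z 1 = nz (z 0) := by
    apply Subtype.ext
    change exp ((Real.pi * (1 : I) : ℝ) * Complex.I) = - exp ((Real.pi * (0 : I) : ℝ) * Complex.I)
    simp [Complex.exp_pi_mul_I]
  simp only [hz1, hodd] at hconst
  have hc0 : c (z 0) = 0 := by linear_combination (-1/2 : ℂ) * hconst
  have := hexp (z 0)
  rw [hc0, exp_zero] at this
  norm_num at this

end Pool.Agent.MP_d70b2d_gt
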