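import Mathlib

set_option autoImplicit false

/-!
# MP_d70b2d_gt: parameter space and signs
-/

namespace Pool.Agent.MP_d70b2d_gt

/-- The parameter space: unit interval times closed unit disc. -/
def K : Set (ℝ × ℂ) := Set.Icc (0 : ℝ) 1 ×ˢ Metric.closedBall (0 : ℂ) 1

/-- Signs of the first symmetry. Order of columns: D0, D1, D3, D2, S2, S1, S3. -/
def s1 : Fin 7 → ℝ := ![-1, -1, -1, 1, -1, 1, 1]

/-- Signs of the second symmetry. -/
def s2 : Fin 7 → ℝ := ![-1, -1, -1, -1, 1, 1, 1]

end Pool.Agent.MP_d70b2d_gt
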