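import Pool.Agent.Lib.MP_d70b2d_gt.Line
import Pool.Agent.Lib.MP_d70b2d_gt.Defs

set_option autoImplicit false

/-!
# MP_d70b2d_gt: continuous choice of an intertwiner
-/

namespace Pool.Agent.MP_d70b2d_gt

open scoped InnerProductSpace

lemma K_compact : IsCompact K := isCompact_Icc.prod (isCompact_closedBall _ _)

lemma K_zero : ((0 : ℝ), (0 : ℂ)) ∈ K := by
  simp [K]

lemma K_norm (x : ℝ × ℂ) (hx : x ∈ K) : ‖x‖ ≤ 1 := by
  rw [Prod.norm_def]
  refine max_le ?_ (mem_closedBall_zero_iff.1 hx.2)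
  rw [Real.norm_eq_abs, abs_of_nonneg hx.1.1]
  exact hx.1.2

lemma K_smul (t : ℝ) (ht : t ∈ Set.Icc (0 : ℝ) 1) (x : ℝ × ℂ) (hx : x ∈ K) : t • x ∈ K := by
  refine ⟨⟨mul_nonneg ht.1 hx.1.1, mul_le_one₀ ht.2 hx.1.1 hx.1.2⟩, ?_⟩
  rw [mem_closedBall_zero_iff]
  change ‖t • x.2‖ ≤ 1
  rw [norm_smul, Real.norm_eq_abs, abs_of_nonneg ht.1]
  exact mul_le_one₀ ht.2 (norm_nonneg _) (mem_closedBall_zero_iff.1 hx.2)

/-- A continuous nowhere zero choice of even intertwiners over the (contractible) parameter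
space. -/
lemma exists_section (o : Fin 7 → ℝ × ℂ → EuclideanSpace ℝ (Fin 9))
    (hc : ∀ j, ContinuousOn (o j) K) (ho : ∀ x ∈ K, Orthonormal ℝ (fun j => o j x)) :
    ∃ T : ℝ × ℂ → V, ContinuousOn T K ∧ ∀ x ∈ K, Lin (fun j => o j x) (T x) ∧ T x ≠ 0 := by
  have hunif : ∃ d > 0, ∀ x ∈ K, ∀ y ∈ K, dist x y < d → ∀ j, ‖o j x - o j y‖ ≤ 1 / 4 := by
    have h1 : ∀ j, ∃ d > 0, ∀ x ∈ K, ∀ y ∈ K, dist x y < d → ‖o j x - o j y‖ ≤ 1 / 4 := by
      intro j
      have h2 := K_compact.uniformContinuousOn_of_continuous (hc j)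
      rw [Metric.uniformContinuousOn_iff] at h2
      obtain ⟨d, hd, h3⟩ := h2 (1 / 4) (by norm_num)
      refine ⟨d, hd, fun x hx y hy hxy => ?_⟩
      have := h3 x hx y hy hxy
      rw [dist_eq_norm] at this
      exact this.le
    choose d hd h2 using h1
    refine ⟨Finset.univ.inf' Finset.univ_nonempty d, ?_, ?_⟩
    · rw [gt_iff_lt, Finset.lt_inf'_iff]
      intro j _
      exact hd j
    · intro x hx y hy hxy j
      exact h2 j x hx y hy (lt_of_lt_of_le hxy (Finset.inf'_le _ (Finset.mem_univ j)))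
  obtain ⟨d, hd, hunif⟩ := hunif
  obtain ⟨N, hN⟩ := exists_nat_gt (1 / d)
  have hN0 : (0 : ℝ) < N := lt_of_le_of_lt (by positivity) hN
  have hNd : 1 / (N : ℝ) < d := by
    rw [div_lt_iff₀ hN0]
    rw [div_lt_iff₀ hd] at hN
    linarith
  obtain ⟨T0, hT0, hT0'⟩ := exists_lin (fun j => o j (0, 0)) (ho _ K_zero)
  have hfr : ∀ k : ℕ, k ≤ N → ((k : ℝ) / N) ∈ Set.Icc (0 : ℝ) 1 := by
    intro k hk
    refine ⟨by positivity, ?_⟩
    rw [div_le_one hN0]
    exact_mod_cast hk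
  have main : ∀ k : ℕ, k ≤ N → ∃ T : ℝ × ℂ → V, ContinuousOn T K ∧
      ∀ x ∈ K, Lin (fun j => o j (((k : ℝ) / N) • x)) (T x) ∧ T x ≠ 0 := by
    intro k
    induction k with
    | zero =>
      intro _
      refine ⟨fun _ => T0, continuousOn_const, fun x hx => ⟨?_, hT0⟩⟩
      have e0 : (((0 : ℕ) : ℝ) / N) • x = ((0 : ℝ), (0 : ℂ)) := by
        rw [Nat.cast_zero, zero_div, zero_smul]; rfl
      rw [e0]
      exact hT0'
    | succ k ih =>
      intro hk
      obtain ⟨T, hTc, hT⟩ := ih (by omega)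
      have hmem := hfr (k + 1) hk
      have hmem' := hfr k (by omega)
      refine ⟨fun x => E (fun j => o j ((((k + 1 : ℕ) : ℝ) / N) • x)) (T x) 7, ?_, ?_⟩
      · refine E_continuousOn K (fun j x => o j ((((k + 1 : ℕ) : ℝ) / N) • x)) ?_ T hTc 7
        intro j
        exact (hc j).comp (continuous_const_smul _).continuousOn (fun x hx => K_smul _ hmem x hx)
      · intro x hx
        have hx1 := K_smul _ hmem x hx
        have hx2 := K_smul _ hmem' x hx
        refine ⟨E_lin _ (ho _ hx1) _ (hT x hx).1.1, ?_⟩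
        refine E_ne_zero (fun j => o j (((k : ℝ) / N) • x)) _ (ho _ hx1) _ (hT x hx).1 (hT x hx).2 ?_
        refine hunif _ hx1 _ hx2 ?_
        rw [dist_eq_norm, ← sub_smul, norm_smul]
        have h1 : (((k + 1 : ℕ) : ℝ) / N) - (k : ℝ) / N = 1 / N := by
          push_cast
          ring
        rw [h1, Real.norm_eq_abs, abs_of_pos (by positivity)]
        calc 1 / (N : ℝ) * ‖x‖ ≤ 1 / (N : ℝ) * 1 :=
              mul_le_mul_of_nonneg_left (K_norm x hx) (by positivity)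
          _ < d := by linarith
  obtain ⟨T, hTc, hT⟩ := main N le_rfl
  refine ⟨T, hTc, fun x hx => ?_⟩
  have := hT x hx
  rw [div_self hN0.ne', one_smul] at this
  exact this

end Pool.Agent.MP_d70b2d_gt
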