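import Pool.Agent.Lib.MP_d70b2d_gt.Defs
import Pool.Agent.Lib.MP_d70b2d_gt.GS
import Pool.Agent.Lib.MP_d70b2d_gt.Section
import Pool.Agent.Lib.MP_d70b2d_gt.Lift

set_option autoImplicit false

/-!
# MP_d70b2d_gt: the topological core

There is no continuous family of seven linearly independent vectors in nine-dimensional space,
parametrised by an interval times a closed disc, with the two families of boundary symmetries
below.  (Geometrically: over circle times projective plane, with classes a and y, the bundle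
3 [a+y] + [a] + [y] + 2 has third dual Stiefel-Whitney class a y^2, so it does not embed in the
trivial bundle of rank nine.)
-/

namespace Pool.Agent.MP_d70b2d_gt

open scoped InnerProductSpace

/-- Coefficient of `T'` with respect to `T` in a complex line of intertwiners. -/
noncomputable def coef (T T' : V) : ℂ := ⟨⟪T, T'⟫_ℝ / ‖T‖ ^ 2, ⟪R gJ T, T'⟫_ℝ / ‖T‖ ^ 2⟩

/-- The complex scalar action. -/
noncomputable def act (c : ℂ) (T : V) : V := c.re • T + c.im • R gJ T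

lemma act_act (c d : ℂ) (T : V) : act c (act d T) = act (c * d) T := by
  simp only [act, map_add, map_smul, R_gJ_gJ, Complex.mul_re, Complex.mul_im]
  module

lemma act_one (T : V) : act 1 T = T := by simp [act]

lemma act_real (r : ℝ) (c : ℂ) (T : V) : act c (r • T) = act (c * r) T := by
  simp only [act, map_smul, Complex.re_mul_ofReal, Complex.im_mul_ofReal]
  module

lemma act_inj (c d : ℂ) (T : V) (hT : T ≠ 0) (h : act c T = act d T) : c = d := by
  have hn : ‖T‖ ≠ 0 := norm_ne_zero_iff.2 hT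
  have e1 : ∀ c : ℂ, ⟪T, act c T⟫_ℝ = c.re * ‖T‖ ^ 2 := by
    intro c
    rw [act, inner_add_right, inner_smul_right, inner_smul_right, real_inner_self_eq_norm_sq,
      real_inner_comm (R gJ T) T, inner_gJ]
    ring
  have e2 : ∀ c : ℂ, ⟪R gJ T, act c T⟫_ℝ = c.im * ‖T‖ ^ 2 := by
    intro c
    rw [act, inner_add_right, inner_smul_right, inner_smul_right, inner_gJ,
      real_inner_self_eq_norm_sq, R_norm]
    ring
  apply Complex.ext
  · have := e1 c
    rw [h, e1 d] at this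
    exact (mul_right_cancel₀ (pow_ne_zero 2 hn) this).symm
  · have := e2 c
    rw [h, e2 d] at this
    exact (mul_right_cancel₀ (pow_ne_zero 2 hn) this).symm

lemma act_coef (o : Fin 7 → EuclideanSpace ℝ (Fin 9)) (T T' : V) (hT : Lin o T)
    (hT' : Lin o T') (hne : T ≠ 0) : T' = act (coef T T') T :=
  line_unique o T T' hT hT' hne

lemma R_act (g : G) (hg : β gJ g + β g gJ = 0) (c : ℂ) (T : V) :
    R g (act c T) = act c (R g T) := by
  rw [act, map_add, map_smul, map_smul, R_comm g gJ, hg, sg_zero, one_smul, act]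

lemma coef_continuousOn {X : Type*} [TopologicalSpace X] (S : Set X) (T T' : X → V)
    (hT : ContinuousOn T S) (hT' : ContinuousOn T' S) (hne : ∀ x ∈ S, T x ≠ 0) :
    ContinuousOn (fun x => coef (T x) (T' x)) S := by
  have hR : ContinuousOn (fun x => R gJ (T x)) S :=
    (R gJ).continuous_of_finiteDimensional.comp_continuousOn hT
  have hn : ContinuousOn (fun x => ‖T x‖ ^ 2) S := hT.norm.pow 2
  have hn0 : ∀ x ∈ S, ‖T x‖ ^ 2 ≠ 0 := fun x hx => pow_ne_zero 2 (norm_ne_zero_iff.2 (hne x hx))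
  have c1 : ContinuousOn (fun x => ⟪T x, T' x⟫_ℝ / ‖T x‖ ^ 2) S := (hT.inner hT').div hn hn0
  have c2 : ContinuousOn (fun x => ⟪R gJ (T x), T' x⟫_ℝ / ‖T x‖ ^ 2) S := (hR.inner hT').div hn hn0
  have h3 : (fun x => coef (T x) (T' x)) = fun x =>
      ((⟪T x, T' x⟫_ℝ / ‖T x‖ ^ 2 : ℝ) : ℂ) +
        ((⟪R gJ (T x), T' x⟫_ℝ / ‖T x‖ ^ 2 : ℝ) : ℂ) * Complex.I := by
    funext x
    exact Complex.mk_eq_add_mul_I _ _
  rw [h3]
  exact (Complex.continuous_ofReal.comp_continuousOn c1).add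
    ((Complex.continuous_ofReal.comp_continuousOn c2).mul continuousOn_const)

/-- The first sign pattern. -/
def g1 : G := ![1, 1, 1, 0, 1, 0, 0, 0, 0]

/-- The second sign pattern. -/
def g2 : G := ![1, 1, 1, 1, 0, 0, 0, 0, 0]

lemma par_g1 : par g1 = 0 := by decide
lemma par_g2 : par g2 = 0 := by decide
lemma gJ_g1 : β gJ g1 + β g1 gJ = 0 := by decide
lemma gJ_g2 : β gJ g2 + β g2 gJ = 0 := by decide
lemma g2_g1 : β g1 g2 + β g2 g1 = 1 := by decide

lemma s1_eq (j : Fin 7) : s1 j = sg (g1 (em j)) := by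
  have h : ∀ j : Fin 7, g1 (em j) = (![1, 1, 1, 0, 1, 0, 0] : Fin 7 → ZMod 2) j := by decide
  rw [h j]
  fin_cases j <;> simp [s1, sg]

lemma s2_eq (j : Fin 7) : s2 j = sg (g2 (em j)) := by
  have h : ∀ j : Fin 7, g2 (em j) = (![1, 1, 1, 1, 0, 0, 0] : Fin 7 → ZMod 2) j := by decide
  rw [h j]
  fin_cases j <;> simp [s2, sg]

lemma s1_sign (j : Fin 7) : s1 j = 1 ∨ s1 j = -1 := by
  fin_cases j <;> simp [s1]

lemma s2_sign (j : Fin 7) : s2 j = 1 ∨ s2 j = -1 := by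
  fin_cases j <;> simp [s2]

/-- The topological core. -/
theorem no_frames (Φ : Fin 7 → ℝ × ℂ → EuclideanSpace ℝ (Fin 9))
    (hc : ∀ j, ContinuousOn (Φ j) K)
    (hli : ∀ x ∈ K, LinearIndependent ℝ (fun j => Φ j x))
    (h1 : ∀ j, ∀ z : ℂ, ‖z‖ ≤ 1 → Φ j (1, z) = s1 j • Φ j (0, z))
    (h2 : ∀ j, ∀ θ ∈ Set.Icc (0 : ℝ) 1, ∀ z : ℂ, ‖z‖ = 1 →
      Φ j (θ, -z) = s2 j • Φ j (θ, z)) : False := by
  obtain ⟨o, hoc, hon, heq⟩ := gs_frames Φ K hc hli
  obtain ⟨T, hTc, hT⟩ := exists_section o hoc hon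
  have hI0 : (0 : ℝ) ∈ Set.Icc (0 : ℝ) 1 := by simp
  have hI1 : (1 : ℝ) ∈ Set.Icc (0 : ℝ) 1 := by simp
  have hK : ∀ θ ∈ Set.Icc (0 : ℝ) 1, ∀ z : ℂ, ‖z‖ ≤ 1 → (θ, z) ∈ K := fun θ hθ z hz =>
    ⟨hθ, mem_closedBall_zero_iff.2 hz⟩
  have e1 : ∀ z : ℂ, ‖z‖ ≤ 1 → ∀ j, o j (1, z) = s1 j • o j (0, z) := fun z hz =>
    heq (0, z) (hK 0 hI0 z hz) (1, z) (hK 1 hI1 z hz) s1 s1_sign (fun j => h1 j z hz)
  have e2 : ∀ θ ∈ Set.Icc (0 : ℝ) 1, ∀ z : ℂ, ‖z‖ = 1 → ∀ j, o j (θ, -z) = s2 j • o j (θ, z) :=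
    fun θ hθ z hz => heq (θ, z) (hK θ hθ z hz.le) (θ, -z) (hK θ hθ (-z) (by rw [norm_neg, hz]))
      s2 s2_sign (fun j => h2 j θ hθ z hz)
  let a : ℂ → ℂ := fun z => coef (R g1 (T (0, z))) (T (1, z))
  let b : ℝ → ℂ → ℂ := fun θ z => coef (R g2 (T (θ, z))) (T (θ, -z))
  have ha : ∀ z : ℂ, ‖z‖ ≤ 1 → T (1, z) = act (a z) (R g1 (T (0, z))) := by
    intro z hz
    have l1 := hT _ (hK 0 hI0 z hz)
    have l2 := hT _ (hK 1 hI1 z hz)
    exact act_coef (fun j => o j (1, z)) _ _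
      (lin_R _ _ l1.1 g1 par_g1 s1 s1_eq _ (e1 z hz)) l2.1 (R_ne_zero _ _ l1.2)
  have hb : ∀ θ ∈ Set.Icc (0 : ℝ) 1, ∀ z : ℂ, ‖z‖ = 1 →
      T (θ, -z) = act (b θ z) (R g2 (T (θ, z))) := by
    intro θ hθ z hz
    have l1 := hT _ (hK θ hθ z hz.le)
    have l2 := hT _ (hK θ hθ (-z) (by rw [norm_neg, hz]))
    exact act_coef (fun j => o j (θ, -z)) _ _
      (lin_R _ _ l1.1 g2 par_g2 s2 s2_eq _ (e2 θ hθ z hz)) l2.1 (R_ne_zero _ _ l1.2)
  have act_zero : ∀ x : V, act 0 x = 0 := fun x => by simp [act]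
  refine no_ab a b (sg (β g2 g2) : ℝ) ?_ ?_ ?_ ?_ ?_ ?_
  · refine coef_continuousOn _ _ _ ?_ ?_ ?_
    · refine (R g1).continuous_of_finiteDimensional.comp_continuousOn ?_
      exact hTc.comp (by fun_prop) (fun z hz => hK 0 hI0 z (mem_closedBall_zero_iff.1 hz))
    · exact hTc.comp (by fun_prop) (fun z hz => hK 1 hI1 z (mem_closedBall_zero_iff.1 hz))
    · intro z hz
      exact R_ne_zero _ _ (hT _ (hK 0 hI0 z (mem_closedBall_zero_iff.1 hz))).2
  · intro z hz h0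
    have hz' := mem_closedBall_zero_iff.1 hz
    have := ha z hz'
    rw [h0, act_zero] at this
    exact (hT _ (hK 1 hI1 z hz')).2 this
  · refine coef_continuousOn _ _ _ ?_ ?_ ?_
    · refine (R g2).continuous_of_finiteDimensional.comp_continuousOn ?_
      exact hTc.comp (by fun_prop)
        (fun p hp => hK p.1 hp.1 p.2 (mem_sphere_zero_iff_norm.1 hp.2).le)
    · exact hTc.comp (by fun_prop)
        (fun p hp => hK p.1 hp.1 (-p.2) (by rw [norm_neg, mem_sphere_zero_iff_norm.1 hp.2]))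
    · intro p hp
      exact R_ne_zero _ _ (hT _ (hK p.1 hp.1 p.2 (mem_sphere_zero_iff_norm.1 hp.2).le)).2
  · intro θ hθ z hz h0
    have hz' := mem_sphere_zero_iff_norm.1 hz
    have := hb θ hθ z hz'
    rw [h0, act_zero] at this
    exact (hT _ (hK θ hθ (-z) (by rw [norm_neg, hz']))).2 this
  · intro θ hθ z hz
    have hz' := mem_sphere_zero_iff_norm.1 hz
    have hzn : ‖-z‖ = 1 := by rw [norm_neg, hz']
    have q1 := hb θ hθ z hz'
    have q2 := hb θ hθ (-z) hzn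
    rw [neg_neg, q1, R_act g2 gJ_g2, act_act, R_R, add_self_G, R_zero, act_real] at q2
    have q3 : act 1 (T (θ, z)) = act (b θ (-z) * b θ z * (sg (β g2 g2) : ℝ)) (T (θ, z)) := by
      rw [act_one]
      exact q2
    have q4 := act_inj _ _ _ (hT _ (hK θ hθ z hz'.le)).2 q3
    have q5 : ((sg (β g2 g2) : ℝ) : ℂ) * ((sg (β g2 g2) : ℝ) : ℂ) = 1 := by
      rw [← Complex.ofReal_mul, sg_mul_self, Complex.ofReal_one]
    linear_combination (-(sg (β g2 g2) : ℝ) : ℂ) * q4 - (b θ (-z) * b θ z) * q5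
  · intro z hz
    have hz' := mem_sphere_zero_iff_norm.1 hz
    have hzn : ‖-z‖ = 1 := by rw [norm_neg, hz']
    have q1 := ha (-z) hzn.le
    rw [hb 0 hI0 z hz', R_act g1 gJ_g1, act_act] at q1
    have q2 := hb 1 hI1 z hz'
    rw [ha z hz'.le, R_act g2 gJ_g2, act_act, R_comm g2 g1, g2_g1, sg_one, act_real] at q2
    rw [q2] at q1
    have q3 := act_inj _ _ _ (R_ne_zero _ _ (R_ne_zero _ _ (hT _ (hK 0 hI0 z hz'.le)).2)) q1
    rw [← q3]
    push_cast
    ring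

end Pool.Agent.MP_d70b2d_gt
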