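import Pool.Agent.Lib.MP_d70b2d_gt.Core

set_option autoImplicit false

/-!
# MP_d70b2d_gt: from a periodic totally skew map to the forbidden family
-/

namespace Pool.Agent.MP_d70b2d_gt

/-- basis vector -/
noncomputable abbrev ge (i : Fin 3) : EuclideanSpace ℝ (Fin 3) := EuclideanSpace.single i (1 : ℝ)

/-- coefficients of the direction vector -/
noncomputable def gc0 (x : ℝ × ℂ) : ℝ :=
  Real.cos (Real.pi * x.1) * x.2.re + Real.sin (Real.pi * x.1) * (1 - ‖x.2‖ ^ 2)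
/-- coefficients of the direction vector -/
noncomputable def gc2 (x : ℝ × ℂ) : ℝ :=
  - Real.sin (Real.pi * x.1) * x.2.re + Real.cos (Real.pi * x.1) * (1 - ‖x.2‖ ^ 2)

/-- the direction vector -/
noncomputable def gV (x : ℝ × ℂ) : EuclideanSpace ℝ (Fin 3) :=
  gc0 x • ge 0 + x.2.im • ge 1 + gc2 x • ge 2

/-- the point `X` -/
noncomputable def gX (x : ℝ × ℂ) : EuclideanSpace ℝ (Fin 3) := x.1 • ge 0 + (1 / 10 : ℝ) • gV x
/-- the point `Y` -/
noncomputable def gY (x : ℝ × ℂ) : EuclideanSpace ℝ (Fin 3) := x.1 • ge 0 - (1 / 10 : ℝ) • gV x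

theorem gc0_cont : Continuous gc0 := by unfold gc0; fun_prop
theorem gc2_cont : Continuous gc2 := by unfold gc2; fun_prop
theorem gV_cont : Continuous gV := by
  unfold gV
  exact ((gc0_cont.smul continuous_const).add
    ((Complex.continuous_im.comp continuous_snd).smul continuous_const)).add
    (gc2_cont.smul continuous_const)
theorem gX_cont : Continuous gX := by
  have h := gV_cont
  unfold gX
  fun_prop
theorem gY_cont : Continuous gY := by
  have h := gV_cont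
  unfold gY
  fun_prop

theorem gV_apply (x : ℝ × ℂ) : gV x 0 = gc0 x ∧ gV x 1 = x.2.im ∧ gV x 2 = gc2 x := by
  refine ⟨?_, ?_, ?_⟩ <;> simp [gV, ge]

theorem gV_norm_sq (x : ℝ × ℂ) : ‖gV x‖ ^ 2 = ‖x.2‖ ^ 2 + (1 - ‖x.2‖ ^ 2) ^ 2 := by
  obtain ⟨h0, h1, h2⟩ := gV_apply x
  rw [EuclideanSpace.norm_sq_eq, Fin.sum_univ_three, h0, h1, h2]
  have hz : ‖x.2‖ ^ 2 = x.2.re ^ 2 + x.2.im ^ 2 := by
    rw [Complex.sq_norm, Complex.normSq_apply]; ring
  have hcs := Real.sin_sq_add_cos_sq (Real.pi * x.1)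
  simp only [Real.norm_eq_abs, sq_abs, gc0, gc2]
  linear_combination (x.2.re ^ 2 + (1 - ‖x.2‖ ^ 2) ^ 2) * hcs - hz

theorem gV_ne (x : ℝ × ℂ) : gV x ≠ 0 := by
  intro h
  have h1 := gV_norm_sq x
  rw [h, norm_zero] at h1
  have h2 : ‖x.2‖ ^ 2 = 0 := by nlinarith [sq_nonneg (‖x.2‖ ^ 2), sq_nonneg (1 - ‖x.2‖ ^ 2), sq_nonneg ‖x.2‖]
  rw [h2] at h1
  norm_num at h1

theorem gV_le {x : ℝ × ℂ} (hx : ‖x.2‖ ≤ 1) : ‖gV x‖ ≤ 1 := by
  have h1 := gV_norm_sq x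
  have h0 := norm_nonneg x.2
  have h2 : ‖x.2‖ ^ 2 ≤ 1 := by nlinarith
  have h3 : ‖gV x‖ ^ 2 ≤ 1 := by
    rw [h1]; nlinarith [sq_nonneg ‖x.2‖]
  nlinarith [norm_nonneg (gV x)]

theorem gX_ne_gY (x : ℝ × ℂ) : gX x ≠ gY x := by
  intro h
  have : (1 / 5 : ℝ) • gV x = 0 := by
    have h' : gX x - gY x = 0 := sub_eq_zero.mpr h
    rw [← h']; unfold gX gY; module
  rcases smul_eq_zero.mp this with h1 | h1
  · norm_num at h1
  · exact gV_ne x h1

theorem gdist {x : ℝ × ℂ} (hx : ‖x.2‖ ≤ 1) : dist (gX x) (gY x) < 1 := by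
  have : gX x - gY x = (1 / 5 : ℝ) • gV x := by unfold gX gY; module
  rw [dist_eq_norm, this, norm_smul]
  have h1 := gV_le hx
  rw [Real.norm_of_nonneg (by norm_num)]
  linarith

/-- the glide reflection -/
noncomputable def gA (P : EuclideanSpace ℝ (Fin 3)) : EuclideanSpace ℝ (Fin 3) :=
  P + ge 0 - (2 * P 1) • ge 1

/-- its linear part -/
noncomputable def gL : EuclideanSpace ℝ (Fin 3) →L[ℝ] EuclideanSpace ℝ (Fin 3) :=
  ContinuousLinearMap.id ℝ _ -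
    ((2 : ℝ) • (EuclideanSpace.proj (1 : Fin 3) : EuclideanSpace ℝ (Fin 3) →L[ℝ] ℝ)).smulRight (ge 1)

theorem gA_hasFDerivAt (P : EuclideanSpace ℝ (Fin 3)) : HasFDerivAt gA gL P := by
  have h1 : gA = fun P => gL P + ge 0 := by
    funext P
    simp [gA, gL]
    abel
  rw [h1]
  exact gL.hasFDerivAt.add_const _

theorem gL_ge (i : Fin 3) : gL (ge i) = (if i = 1 then (-1 : ℝ) else 1) • ge i := by
  fin_cases i
  · simp [gL, ge]
  · simp [gL, ge]; module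
  · simp [gL, ge]

theorem gX_one (z : ℂ) : gX (1, z) = gA (gY (0, z)) := by
  have hv : gV (1, z) 0 = - gV (0, z) 0 ∧ gV (1, z) 1 = gV (0, z) 1 ∧
      gV (1, z) 2 = - gV (0, z) 2 := by
    obtain ⟨h0, h1, h2⟩ := gV_apply (1, z)
    obtain ⟨h0', h1', h2'⟩ := gV_apply (0, z)
    rw [h0, h1, h2, h0', h1', h2']
    refine ⟨?_, rfl, ?_⟩ <;> simp [gc0, gc2]
  obtain ⟨h0, h1, h2⟩ := hv
  ext i
  fin_cases i
  · simp [gX, gY, gA, ge, h0]; ring
  · simp [gX, gY, gA, ge, h1]; ring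
  · simp [gX, gY, gA, ge, h2]

theorem gY_one (z : ℂ) : gY (1, z) = gA (gX (0, z)) := by
  have hv : gV (1, z) 0 = - gV (0, z) 0 ∧ gV (1, z) 1 = gV (0, z) 1 ∧
      gV (1, z) 2 = - gV (0, z) 2 := by
    obtain ⟨h0, h1, h2⟩ := gV_apply (1, z)
    obtain ⟨h0', h1', h2'⟩ := gV_apply (0, z)
    rw [h0, h1, h2, h0', h1', h2']
    refine ⟨?_, rfl, ?_⟩ <;> simp [gc0, gc2]
  obtain ⟨h0, h1, h2⟩ := hv
  ext i
  fin_cases i
  · simp [gX, gY, gA, ge, h0]; ring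
  · simp [gX, gY, gA, ge, h1]; ring
  · simp [gX, gY, gA, ge, h2]

theorem gV_neg (θ : ℝ) {z : ℂ} (hz : ‖z‖ = 1) : gV (θ, -z) = - gV (θ, z) := by
  unfold gV gc0 gc2
  simp only [norm_neg, hz, Complex.neg_re, Complex.neg_im]
  norm_num
  module

theorem gX_neg (θ : ℝ) {z : ℂ} (hz : ‖z‖ = 1) : gX (θ, -z) = gY (θ, z) := by
  unfold gX gY; rw [gV_neg θ hz]; module

theorem gY_neg (θ : ℝ) {z : ℂ} (hz : ‖z‖ = 1) : gY (θ, -z) = gX (θ, z) := by
  unfold gX gY; rw [gV_neg θ hz]; module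

/-- No `C^1` map `h : ℝ³ → ℝ⁹` is invariant under `A (x, y, z) = (x + 1, -y, z)` and totally skew at
pairs of distinct points at distance less than one.

Proof.  Put `ε = 1/10`, for `θ ∈ [0,1]`, `z ∈ ℂ`, `‖z‖ ≤ 1` let `v' = (z.re, z.im, 1 - ‖z‖²) ≠ 0`,
`v = (cos πθ * v'₀ + sin πθ * v'₂, v'₁, - sin πθ * v'₀ + cos πθ * v'₂)`, `X = (θ,0,0) + ε v`,
`Y = (θ,0,0) - ε v`; so `X ≠ Y`, `dist X Y < 1`.  Columns (with `∂ i` the i-th partial derivative):
`Φ 0 = h X - h Y`, `Φ 1 = ∂₀ h X - ∂₀ h Y`, `Φ 2 = ∂₂ h X - ∂₂ h Y`, `Φ 3 = ∂₁ h X - ∂₁ h Y`,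
`Φ 4 = ∂₁ h X + ∂₁ h Y`, `Φ 5 = ∂₀ h X + ∂₀ h Y`, `Φ 6 = ∂₂ h X + ∂₂ h Y`.
They are continuous and linearly independent (if `∑ c j • Φ j = 0` then skewness with `t = c 0`,
`u = ∑ (c + d) e_i`, `w = - ∑ (c - d) e_i` gives all zero).
At `θ = 1`: `X(1,z) = A Y(0,z)`, `Y(1,z) = A X(0,z)`, and `h (A P) = h P` gives
`∂₀ h (A P) = ∂₀ h P`, `∂₁ h (A P) = - ∂₁ h P`, `∂₂ h (A P) = ∂₂ h P`; hence the signs `s1`.
If `‖z‖ = 1` then `v'(-z) = -v'(z)`, so `X` and `Y` are exchanged; hence the signs `s2`.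
Then apply `no_frames`. -/
theorem no_periodic_skew (h : EuclideanSpace ℝ (Fin 3) → EuclideanSpace ℝ (Fin 9))
    (hd : ContDiff ℝ 1 h)
    (hper : ∀ X Y : EuclideanSpace ℝ (Fin 3), Y 0 = X 0 + 1 → Y 1 = - X 1 → Y 2 = X 2 → h Y = h X)
    (hsk : ∀ X Y : EuclideanSpace ℝ (Fin 3), X ≠ Y → dist X Y < 1 →
        ∀ (t : ℝ) (u w : EuclideanSpace ℝ (Fin 3)),
          t • (h X - h Y) + fderiv ℝ h X u = fderiv ℝ h Y w → t = 0 ∧ u = 0 ∧ w = 0) :
    False := by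
  have hdiff : Differentiable ℝ h := hd.differentiable (by norm_num)
  have hfc : Continuous (fderiv ℝ h) := hd.continuous_fderiv (by norm_num)
  have hAh : ∀ P, h (gA P) = h P := by
    intro P
    refine hper P (gA P) ?_ ?_ ?_
    · simp [gA, ge]
    · simp [gA, ge]; ring
    · simp [gA, ge]
  set D : Fin 3 → EuclideanSpace ℝ (Fin 3) → EuclideanSpace ℝ (Fin 9) :=
    fun i P => fderiv ℝ h P (ge i) with hD
  have hDc : ∀ i, Continuous (D i) := fun i => hfc.clm_apply continuous_const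
  have hDA : ∀ i P, D i (gA P) = (if i = 1 then (-1 : ℝ) else 1) • D i P := by
    intro i P
    have h1 : HasFDerivAt h ((fderiv ℝ h (gA P)).comp gL) P := by
      have h2 := (hdiff (gA P)).hasFDerivAt.comp P (gA_hasFDerivAt P)
      have h3 : h ∘ gA = h := funext hAh
      rwa [h3] at h2
    have h4 : fderiv ℝ h P = (fderiv ℝ h (gA P)).comp gL := h1.fderiv
    have h5 : D i P = (if i = 1 then (-1 : ℝ) else 1) • D i (gA P) := by
      simp only [hD]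
      rw [h4, ContinuousLinearMap.comp_apply, gL_ge, map_smul]
    rw [h5, smul_smul]
    split_ifs <;> simp
  set Φ : Fin 7 → ℝ × ℂ → EuclideanSpace ℝ (Fin 9) := fun j x =>
    (![h (gX x) - h (gY x), D 0 (gX x) - D 0 (gY x), D 2 (gX x) - D 2 (gY x),
      D 1 (gX x) - D 1 (gY x), D 1 (gX x) + D 1 (gY x), D 0 (gX x) + D 0 (gY x),
      D 2 (gX x) + D 2 (gY x)] : Fin 7 → EuclideanSpace ℝ (Fin 9)) j with hΦ
  refine no_frames Φ ?_ ?_ ?_ ?_
  · intro j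
    refine Continuous.continuousOn ?_
    have hh : Continuous h := hd.continuous
    fin_cases j
    · exact (hh.comp gX_cont).sub (hh.comp gY_cont)
    · exact ((hDc 0).comp gX_cont).sub ((hDc 0).comp gY_cont)
    · exact ((hDc 2).comp gX_cont).sub ((hDc 2).comp gY_cont)
    · exact ((hDc 1).comp gX_cont).sub ((hDc 1).comp gY_cont)
    · exact ((hDc 1).comp gX_cont).add ((hDc 1).comp gY_cont)
    · exact ((hDc 0).comp gX_cont).add ((hDc 0).comp gY_cont)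
    · exact ((hDc 2).comp gX_cont).add ((hDc 2).comp gY_cont)
  · intro x hx
    have hx2 : ‖x.2‖ ≤ 1 := by
      have := hx.2
      rwa [mem_closedBall_zero_iff] at this
    rw [Fintype.linearIndependent_iff]
    intro g hg
    rw [Fin.sum_univ_seven] at hg
    have key := hsk (gX x) (gY x) (gX_ne_gY x) (gdist hx2) (g 0)
      ((g 1 + g 5) • ge 0 + (g 3 + g 4) • ge 1 + (g 2 + g 6) • ge 2)
      ((g 1 - g 5) • ge 0 + (g 3 - g 4) • ge 1 + (g 2 - g 6) • ge 2) ?_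
    · obtain ⟨k0, k1, k2⟩ := key
      have a0 := congrArg (fun v : EuclideanSpace ℝ (Fin 3) => v 0) k1
      have a1 := congrArg (fun v : EuclideanSpace ℝ (Fin 3) => v 1) k1
      have a2 := congrArg (fun v : EuclideanSpace ℝ (Fin 3) => v 2) k1
      have b0 := congrArg (fun v : EuclideanSpace ℝ (Fin 3) => v 0) k2
      have b1 := congrArg (fun v : EuclideanSpace ℝ (Fin 3) => v 1) k2
      have b2 := congrArg (fun v : EuclideanSpace ℝ (Fin 3) => v 2) k2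
      simp [ge] at a0 a1 a2 b0 b1 b2
      intro i
      fin_cases i
      · exact k0
      · show g 1 = 0; linarith
      · show g 2 = 0; linarith
      · show g 3 = 0; linarith
      · show g 4 = 0; linarith
      · show g 5 = 0; linarith
      · show g 6 = 0; linarith
    · have hg' : g 0 • (h (gX x) - h (gY x)) + g 1 • (D 0 (gX x) - D 0 (gY x))
          + g 2 • (D 2 (gX x) - D 2 (gY x)) + g 3 • (D 1 (gX x) - D 1 (gY x))
          + g 4 • (D 1 (gX x) + D 1 (gY x)) + g 5 • (D 0 (gX x) + D 0 (gY x))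
          + g 6 • (D 2 (gX x) + D 2 (gY x)) = 0 := hg
      have e1 : fderiv ℝ h (gX x) ((g 1 + g 5) • ge 0 + (g 3 + g 4) • ge 1 + (g 2 + g 6) • ge 2)
          = (g 1 + g 5) • D 0 (gX x) + (g 3 + g 4) • D 1 (gX x) + (g 2 + g 6) • D 2 (gX x) := by
        simp only [hD, map_add, map_smul]
      have e2 : fderiv ℝ h (gY x) ((g 1 - g 5) • ge 0 + (g 3 - g 4) • ge 1 + (g 2 - g 6) • ge 2)
          = (g 1 - g 5) • D 0 (gY x) + (g 3 - g 4) • D 1 (gY x) + (g 2 - g 6) • D 2 (gY x) := by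
        simp only [hD, map_add, map_smul]
      rw [e1, e2, ← sub_eq_zero, ← hg']
      module
  · intro j z hz
    have hX := gX_one z
    have hY := gY_one z
    fin_cases j
    · show h (gX (1, z)) - h (gY (1, z)) = (-1 : ℝ) • (h (gX (0, z)) - h (gY (0, z)))
      rw [hX, hY, hAh, hAh]; module
    · show D 0 (gX (1, z)) - D 0 (gY (1, z)) = (-1 : ℝ) • (D 0 (gX (0, z)) - D 0 (gY (0, z)))
      rw [hX, hY, hDA, hDA]; simp only [Fin.isValue, zero_ne_one, if_false]; module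
    · show D 2 (gX (1, z)) - D 2 (gY (1, z)) = (-1 : ℝ) • (D 2 (gX (0, z)) - D 2 (gY (0, z)))
      rw [hX, hY, hDA, hDA]
      have : ¬ ((2 : Fin 3) = 1) := by decide
      simp only [this, if_false]; module
    · show D 1 (gX (1, z)) - D 1 (gY (1, z)) = (1 : ℝ) • (D 1 (gX (0, z)) - D 1 (gY (0, z)))
      rw [hX, hY, hDA, hDA]; simp only [if_true]; module
    · show D 1 (gX (1, z)) + D 1 (gY (1, z)) = (-1 : ℝ) • (D 1 (gX (0, z)) + D 1 (gY (0, z)))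
      rw [hX, hY, hDA, hDA]; simp only [if_true]; module
    · show D 0 (gX (1, z)) + D 0 (gY (1, z)) = (1 : ℝ) • (D 0 (gX (0, z)) + D 0 (gY (0, z)))
      rw [hX, hY, hDA, hDA]; simp only [Fin.isValue, zero_ne_one, if_false]; module
    · show D 2 (gX (1, z)) + D 2 (gY (1, z)) = (1 : ℝ) • (D 2 (gX (0, z)) + D 2 (gY (0, z)))
      rw [hX, hY, hDA, hDA]
      have : ¬ ((2 : Fin 3) = 1) := by decide
      simp only [this, if_false]; module
  · intro j θ _ z hz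
    have hX := gX_neg θ hz
    have hY := gY_neg θ hz
    fin_cases j
    · show h (gX (θ, -z)) - h (gY (θ, -z)) = (-1 : ℝ) • (h (gX (θ, z)) - h (gY (θ, z)))
      rw [hX, hY]; module
    · show D 0 (gX (θ, -z)) - D 0 (gY (θ, -z)) = (-1 : ℝ) • (D 0 (gX (θ, z)) - D 0 (gY (θ, z)))
      rw [hX, hY]; module
    · show D 2 (gX (θ, -z)) - D 2 (gY (θ, -z)) = (-1 : ℝ) • (D 2 (gX (θ, z)) - D 2 (gY (θ, z)))
      rw [hX, hY]; module
    · show D 1 (gX (θ, -z)) - D 1 (gY (θ, -z)) = (-1 : ℝ) • (D 1 (gX (θ, z)) - D 1 (gY (θ, z)))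
      rw [hX, hY]; module
    · show D 1 (gX (θ, -z)) + D 1 (gY (θ, -z)) = (1 : ℝ) • (D 1 (gX (θ, z)) + D 1 (gY (θ, z)))
      rw [hX, hY]; module
    · show D 0 (gX (θ, -z)) + D 0 (gY (θ, -z)) = (1 : ℝ) • (D 0 (gX (θ, z)) + D 0 (gY (θ, z)))
      rw [hX, hY]; module
    · show D 2 (gX (θ, -z)) + D 2 (gY (θ, -z)) = (1 : ℝ) • (D 2 (gX (θ, z)) + D 2 (gY (θ, z)))
      rw [hX, hY]; module

end Pool.Agent.MP_d70b2d_gt
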