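import Pool.Agent.Lib.MP_d70b2d_gt.Cliff

set_option autoImplicit false

/-!
# MP_d70b2d_gt: the complex line of intertwiners
-/

namespace Pool.Agent.MP_d70b2d_gt

open scoped InnerProductSpace

/-- embedding of the first seven indices -/
def em (j : Fin 7) : Fin 9 := Fin.castLE (by norm_num) j

/-- The complex structure. -/
def gJ : G := δ 7 + δ 8

lemma two_G (a : ZMod 2) : a + a = 0 := by revert a; decide

/-- The intertwining involution. -/
noncomputable def P (o : Fin 7 → EuclideanSpace ℝ (Fin 9)) (j : Fin 7) : V →ₗ[ℝ] V :=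
  (L (o j)).comp (R (δ (em j)))

lemma P_apply (o : Fin 7 → EuclideanSpace ℝ (Fin 9)) (j : Fin 7) (x : V) :
    P o j x = L (o j) (R (δ (em j)) x) := rfl

/-- Even intertwiners. -/
def Lin (o : Fin 7 → EuclideanSpace ℝ (Fin 9)) (x : V) : Prop :=
  Pi' x = x ∧ ∀ j, P o j x = x

lemma β_comm (g h : G) : β g h + β h g = par g * par h + ∑ i, g i * h i := by
  have e1 : β h g = ∑ i, ∑ j, if i < j then g i * h j else 0 := by
    rw [β, Finset.sum_comm]
    refine Finset.sum_congr rfl fun i _ => Finset.sum_congr rfl fun j _ => ?_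
    rw [mul_comm]
  have e2 : par g * par h = ∑ i, ∑ j, g i * h j := by
    rw [par, par, Finset.sum_mul_sum]
  have e3 : ∑ i, g i * h i = ∑ i, ∑ j, if i = j then g i * h j else 0 := by
    refine Finset.sum_congr rfl fun i _ => ?_
    simp
  rw [e1, e2, e3, β]
  simp only [← Finset.sum_add_distrib]
  refine Finset.sum_congr rfl fun i _ => Finset.sum_congr rfl fun j _ => ?_
  rcases lt_trichotomy i j with h1 | h1 | h1
  · simp [h1, h1.ne, not_lt.2 h1.le]
  · subst h1
    simp [two_G]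
  · simp [h1, h1.ne', not_lt.2 h1.le]

lemma β_comm_δ (g : G) (j : Fin 9) : β (δ j) g + β g (δ j) = par g + g j := by
  rw [β_comm, par_δ, one_mul]
  congr 1
  simp [δ, Pi.single_apply]

lemma R_δ_comm (g : G) (j : Fin 9) (x : V) :
    R (δ j) (R g x) = sg (par g + g j) • R g (R (δ j) x) := by
  rw [R_comm, add_comm (β g (δ j)), β_comm_δ]

lemma P_R (o : Fin 7 → EuclideanSpace ℝ (Fin 9)) (j : Fin 7) (g : G) (x : V) :
    P o j (R g x) = sg (par g + g (em j)) • R g (P o j x) := by
  rw [P_apply, R_δ_comm, map_smul, L_R, P_apply]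

lemma Pi'_P (o : Fin 7 → EuclideanSpace ℝ (Fin 9)) (j : Fin 7) (x : V) :
    Pi' (P o j x) = P o j (Pi' x) := by
  rw [P_apply, Pi'_L, Pi'_R, par_δ, sg_one, P_apply]
  simp

lemma R_δ_inner (j : Fin 9) (x y : V) : ⟪R (δ j) x, y⟫_ℝ = ⟪x, R (δ j) y⟫_ℝ := by
  rw [R_inner, β_δ_δ]
  simp [sg_zero]

lemma P_inner (o : Fin 7 → EuclideanSpace ℝ (Fin 9)) (j : Fin 7) (x y : V) :
    ⟪P o j x, y⟫_ℝ = ⟪x, P o j y⟫_ℝ := by
  rw [P_apply, L_inner, R_δ_inner, P_apply, L_R]

lemma P_norm (o : Fin 7 → EuclideanSpace ℝ (Fin 9)) (j : Fin 7) (x : V) :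
    ‖P o j x‖ = ‖o j‖ * ‖x‖ := by
  rw [P_apply, L_norm, R_norm]

lemma P_P_self (o : Fin 7 → EuclideanSpace ℝ (Fin 9)) (ho : Orthonormal ℝ o) (j : Fin 7) (x : V) :
    P o j (P o j x) = x := by
  rw [P_apply, P_apply, ← L_R, R_R, β_δ_δ, add_self_G, R_zero]
  have h1 := L_L (o j) (o j) x
  rw [real_inner_self_eq_norm_sq, ho.1 j] at h1
  simp only [lt_irrefl, if_false, sg_zero, one_smul]
  rw [← two_smul ℝ] at h1
  have h2 : (2 : ℝ) • L (o j) (L (o j) x) = (2 : ℝ) • x := by
    rw [h1]; norm_num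
  exact smul_right_injective V (two_ne_zero) h2

lemma em_inj {i j : Fin 7} (h : i ≠ j) : em i ≠ em j := by
  intro h1
  apply h
  revert i j
  decide

lemma P_P_ne (o : Fin 7 → EuclideanSpace ℝ (Fin 9)) (ho : Orthonormal ℝ o) (i j : Fin 7)
    (hij : i ≠ j) (x : V) : P o i (P o j x) = P o j (P o i x) := by
  have h1 := L_L (o i) (o j) (R (δ (em j)) (R (δ (em i)) x))
  rw [ho.2 hij, mul_zero, zero_smul] at h1
  have h2 : R (δ (em i)) (R (δ (em j)) x) = - R (δ (em j)) (R (δ (em i)) x) := by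
    rw [R_δ_comm, par_δ]
    have : δ (em j) (em i) = 0 := by
      simp [δ, em_inj hij]
    rw [this, add_zero, sg_one]
    simp
  calc P o i (P o j x) = L (o i) (L (o j) (R (δ (em i)) (R (δ (em j)) x))) := by
        rw [P_apply, P_apply, ← L_R]
    _ = - L (o i) (L (o j) (R (δ (em j)) (R (δ (em i)) x))) := by
        rw [h2, map_neg, map_neg]
    _ = L (o j) (L (o i) (R (δ (em j)) (R (δ (em i)) x))) := by
        exact (eq_neg_of_add_eq_zero_right h1).symm
    _ = P o j (P o i x) := by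
        rw [P_apply, P_apply, ← L_R]

lemma exists_index (g : G) (h0 : g ≠ 0) (hJ : g ≠ gJ) (hp : par g = 0) :
    ∃ j : Fin 7, g (em j) = 1 := by
  by_contra hcon
  push Not at hcon
  have h1 : ∀ a : ZMod 2, a ≠ 1 → a = 0 := by decide
  have h2 : ∀ j : Fin 7, g (em j) = 0 := fun j => h1 _ (hcon j)
  have h3 : g 0 = 0 := h2 0
  have h4 : g 1 = 0 := h2 1
  have h5 : g 2 = 0 := h2 2
  have h6 : g 3 = 0 := h2 3
  have h7 : g 4 = 0 := h2 4
  have h8 : g 5 = 0 := h2 5
  have h9 : g 6 = 0 := h2 6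
  have hp' : g 7 + g 8 = 0 := by
    have : par g = g 7 + g 8 := by
      simp [par, Fin.sum_univ_succ, h3]
      have e1 : g (Fin.succ 0) = 0 := h4
      have e2 : g (Fin.succ 1) = 0 := h5
      simp_all
    rw [← this, hp]
  have h10 : ∀ a b : ZMod 2, a + b = 0 → (a = 0 ∧ b = 0) ∨ (a = 1 ∧ b = 1) := by decide
  rcases h10 _ _ hp' with ⟨ha, hb⟩ | ⟨ha, hb⟩
  · apply h0
    funext i
    fin_cases i <;> simp_all
  · apply hJ
    funext i
    fin_cases i <;> simp_all [gJ, δ]

lemma gJ_self : β gJ gJ = 1 := by decide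

lemma gJ_ne : gJ ≠ 0 := by decide

lemma par_gJ : par gJ = 0 := by decide

lemma R_gJ_gJ (x : V) : R gJ (R gJ x) = - x := by
  rw [R_R, gJ_self, sg_one, add_self_G, R_zero, neg_one_smul]

lemma inner_gJ (x : V) : ⟪R gJ x, x⟫_ℝ = 0 := by
  have h := R_inner gJ x x
  rw [gJ_self, sg_one, real_inner_comm (R gJ x) x] at h
  linarith

/-- Orthogonality relations. -/
lemma inner_R_eq_zero (o : Fin 7 → EuclideanSpace ℝ (Fin 9)) (T T' : V) (hT : Lin o T)
    (hT' : Lin o T') (g : G) (h0 : g ≠ 0) (hJ : g ≠ gJ) : ⟪R g T, T'⟫_ℝ = 0 := by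
  have hpar : ∀ a : ZMod 2, a = 0 ∨ a = 1 := by decide
  rcases hpar (par g) with hp | hp
  · obtain ⟨j, hj⟩ := exists_index g h0 hJ hp
    have h1 : ⟪R g T, T'⟫_ℝ = - ⟪R g T, T'⟫_ℝ := by
      calc ⟪R g T, T'⟫_ℝ = ⟪R g T, P o j T'⟫_ℝ := by rw [hT'.2 j]
        _ = ⟪P o j (R g T), T'⟫_ℝ := by rw [P_inner]
        _ = - ⟪R g T, T'⟫_ℝ := by
          rw [P_R, hT.2 j, hp, hj, zero_add, sg_one, neg_one_smul, inner_neg_left]
    linarith
  · have h1 : ⟪R g T, T'⟫_ℝ = - ⟪R g T, T'⟫_ℝ := by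
      calc ⟪R g T, T'⟫_ℝ = ⟪R g T, Pi' T'⟫_ℝ := by rw [hT'.1]
        _ = ⟪Pi' (R g T), T'⟫_ℝ := by rw [Pi'_inner]
        _ = - ⟪R g T, T'⟫_ℝ := by
          rw [Pi'_R, hT.1, hp, sg_one, neg_one_smul, inner_neg_left]
    linarith

/-- The space of even intertwiners is a complex line. -/
lemma line_unique (o : Fin 7 → EuclideanSpace ℝ (Fin 9)) (T T' : V) (hT : Lin o T)
    (hT' : Lin o T') (hne : T ≠ 0) :
    T' = (⟪T, T'⟫_ℝ / ‖T‖ ^ 2) • T + (⟪R gJ T, T'⟫_ℝ / ‖T‖ ^ 2) • R gJ T := by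
  classical
  have hn : ‖T‖ ≠ 0 := norm_ne_zero_iff.2 hne
  let b : G → V := fun g => ‖T‖⁻¹ • R g T
  have hb : Orthonormal ℝ b := by
    constructor
    · intro g
      simp only [b]
      rw [norm_smul, norm_inv, norm_norm, R_norm, inv_mul_cancel₀ hn]
    · intro g h hgh
      simp only [b]
      rw [inner_smul_left, inner_smul_right, R_inner, R_R, inner_smul_right]
      have h1 : g + h ≠ 0 := by
        intro h2
        apply hgh
        have : g + h + h = h := by rw [h2, zero_add]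
        rw [add_assoc, add_self_G, add_zero] at this
        exact this
      have h2 : ⟪T, R (g + h) T⟫_ℝ = 0 := by
        rw [real_inner_comm]
        by_cases h3 : g + h = gJ
        · rw [h3, inner_gJ]
        · exact inner_R_eq_zero o T T hT hT _ h1 h3
      rw [h2]
      simp
  have hcard : Module.finrank ℝ V = Fintype.card G := finrank_euclideanSpace
  have hb' : Orthonormal ℝ ((Set.univ : Set G).domRestrict b) :=
    hb.comp _ Subtype.val_injective
  obtain ⟨B, hB⟩ := hb'.exists_orthonormalBasis_extension_of_card_eq hcard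
  have hB' : ∀ g, B g = ‖T‖⁻¹ • R g T := fun g => hB g (Set.mem_univ _)
  have hsum := B.sum_repr' T'
  rw [Finset.sum_eq_add (0 : G) gJ gJ_ne.symm] at hsum
  · rw [← hsum]
    conv_lhs => rw [hB', hB', R_zero]
    rw [hsum]
    rw [inner_smul_left, inner_smul_left, smul_smul, smul_smul]
    congr 1
    · congr 1
      simp
      field_simp
    · congr 1
      simp
      field_simp
  · intro g _ hg
    rw [hB', inner_smul_left, inner_R_eq_zero o T T' hT hT' g hg.1 hg.2]
    simp
  · intro h; exact absurd (Finset.mem_univ _) h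
  · intro h; exact absurd (Finset.mem_univ _) h

lemma lin_R (o : Fin 7 → EuclideanSpace ℝ (Fin 9)) (T : V) (hT : Lin o T) (g : G)
    (hg : par g = 0) (ε : Fin 7 → ℝ) (hε : ∀ j, ε j = sg (g (em j)))
    (o' : Fin 7 → EuclideanSpace ℝ (Fin 9)) (ho' : ∀ j, o' j = ε j • o j) : Lin o' (R g T) := by
  refine ⟨?_, ?_⟩
  · rw [Pi'_R, hg, sg_zero, one_smul, hT.1]
  · intro j
    have h1 : P o' j (R g T) = ε j • P o j (R g T) := by
      rw [P_apply, P_apply, ho', L_smul]
    rw [h1, P_R, hg, zero_add, hT.2 j, smul_smul, hε, sg_mul_self, one_smul]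

lemma R_ne_zero (g : G) (x : V) (hx : x ≠ 0) : R g x ≠ 0 := by
  rw [← norm_ne_zero_iff, R_norm]
  exact norm_ne_zero_iff.2 hx

lemma exists_lin_aux (o : Fin 7 → EuclideanSpace ℝ (Fin 9)) (ho : Orthonormal ℝ o) :
    ∀ k : ℕ, ∃ x : V, x ≠ 0 ∧ Pi' x = x ∧ ∀ j : Fin 7, (j : ℕ) < k → P o j x = x := by
  intro k
  induction k with
  | zero =>
    refine ⟨EuclideanSpace.single 0 1, ?_, ?_, ?_⟩
    · intro h
      have := congrArg (fun v : V => v 0) h
      simp at this
    · ext g
      rw [Pi'_apply]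
      by_cases hg : g = 0
      · subst hg
        have : par 0 = 0 := by decide
        rw [this, sg_zero, one_mul]
      · simp [hg]
    · intro j hj
      exact absurd hj (Nat.not_lt_zero _)
  | succ k ih =>
    obtain ⟨x, hx0, hxe, hx⟩ := ih
    by_cases hk : k < 7
    · let i : Fin 7 := ⟨k, hk⟩
      by_cases hy : x + P o i x = 0
      · -- use the operator which anticommutes
        let g : G := δ (em i) + δ 8
        have hem8 : em i ≠ 8 := by
          intro h
          have h1 : (em i : ℕ) = k := rfl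
          rw [h] at h1
          have : (8 : ℕ) = k := h1
          omega
        have hpar : par g = 0 := by
          rw [par_add, par_δ, par_δ]
          decide
        have hgi : g (em i) = 1 := by
          simp [g, δ, hem8]
        have hgj : ∀ j : Fin 7, (j : ℕ) < k → g (em j) = 0 := by
          intro j hj
          have h1 : em j ≠ em i := em_inj (by
            intro h
            rw [h] at hj
            exact absurd hj (lt_irrefl _))
          have h2 : em j ≠ 8 := by
            intro h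
            have h3 : (em j : ℕ) = j := rfl
            rw [h] at h3
            have h4 : (8 : ℕ) = j := h3
            omega
          simp [g, δ, h1, h2]
        refine ⟨R g x, R_ne_zero g x hx0, ?_, ?_⟩
        · rw [Pi'_R, hpar, sg_zero, one_smul, hxe]
        · intro j hj
          rw [P_R, hpar, zero_add]
          rcases Nat.lt_succ_iff_lt_or_eq.1 hj with h1 | h1
          · rw [hgj j h1, sg_zero, one_smul, hx j h1]
          · have h2 : j = i := Fin.ext h1
            rw [h2, hgi, sg_one, eq_neg_of_add_eq_zero_right hy]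
            simp
      · refine ⟨x + P o i x, hy, ?_, ?_⟩
        · rw [map_add, Pi'_P, hxe]
        · intro j hj
          rcases Nat.lt_succ_iff_lt_or_eq.1 hj with h1 | h1
          · have h2 : j ≠ i := by
              intro h
              rw [h] at h1
              exact absurd h1 (lt_irrefl _)
            rw [map_add, hx j h1, P_P_ne o ho j i h2, hx j h1]
          · have h2 : j = i := Fin.ext h1
            rw [h2, map_add, P_P_self o ho, add_comm]
    · refine ⟨x, hx0, hxe, fun j _ => hx j ?_⟩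
      have := j.2
      omega

lemma exists_lin (o : Fin 7 → EuclideanSpace ℝ (Fin 9)) (ho : Orthonormal ℝ o) :
    ∃ x : V, x ≠ 0 ∧ Lin o x := by
  obtain ⟨x, h0, h1, h2⟩ := exists_lin_aux o ho 7
  exact ⟨x, h0, h1, fun j => h2 j j.2⟩

/-- Partial projections onto the intertwiners. -/
noncomputable def E (o : Fin 7 → EuclideanSpace ℝ (Fin 9)) (x : V) : ℕ → V
  | 0 => x
  | k + 1 => if h : k < 7 then (1 / 2 : ℝ) • (E o x k + P o ⟨k, h⟩ (E o x k)) else E o x k

lemma E_even (o : Fin 7 → EuclideanSpace ℝ (Fin 9)) (x : V) (hx : Pi' x = x) (k : ℕ) :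
    Pi' (E o x k) = E o x k := by
  induction k with
  | zero => exact hx
  | succ k ih =>
    rw [E]
    split_ifs with h
    · rw [map_smul, map_add, Pi'_P, ih]
    · exact ih

lemma E_fix (o : Fin 7 → EuclideanSpace ℝ (Fin 9)) (ho : Orthonormal ℝ o) (x : V) (k : ℕ) :
    ∀ j : Fin 7, (j : ℕ) < k → P o j (E o x k) = E o x k := by
  induction k with
  | zero => intro j hj; exact absurd hj (Nat.not_lt_zero _)
  | succ k ih =>
    intro j hj
    rw [E]
    split_ifs with h
    · rcases Nat.lt_succ_iff_lt_or_eq.1 hj with h1 | h1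
      · have h2 : j ≠ ⟨k, h⟩ := by
          intro h3
          rw [h3] at h1
          exact absurd h1 (lt_irrefl _)
        rw [map_smul, map_add, P_P_ne o ho j _ h2, ih j h1]
      · have h2 : j = ⟨k, h⟩ := Fin.ext h1
        rw [h2, map_smul, map_add, P_P_self o ho, add_comm]
    · apply ih
      have := j.2
      omega

lemma E_lin (o : Fin 7 → EuclideanSpace ℝ (Fin 9)) (ho : Orthonormal ℝ o) (x : V)
    (hx : Pi' x = x) : Lin o (E o x 7) :=
  ⟨E_even o x hx 7, fun j => E_fix o ho x 7 j j.2⟩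

lemma E_close (o o' : Fin 7 → EuclideanSpace ℝ (Fin 9)) (ho' : Orthonormal ℝ o')
    (s : V) (hs : Lin o s) (η : ℝ) (hη : ∀ j, ‖o' j - o j‖ ≤ η) (k : ℕ) :
    ‖E o' s k - s‖ ≤ (k / 2 : ℝ) * η * ‖s‖ := by
  have hη0 : 0 ≤ η := le_trans (norm_nonneg _) (hη 0)
  induction k with
  | zero => simp [E]
  | succ k ih =>
    rw [E]
    split_ifs with h
    · have h1 : (1 / 2 : ℝ) • (E o' s k + P o' ⟨k, h⟩ (E o' s k)) - s =
          (1 / 2 : ℝ) • ((E o' s k - s) + P o' ⟨k, h⟩ (E o' s k - s) +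
            (P o' ⟨k, h⟩ s - P o ⟨k, h⟩ s)) := by
        rw [hs.2 ⟨k, h⟩, map_sub]
        module
      have h2 : ‖P o' ⟨k, h⟩ (E o' s k - s)‖ = ‖E o' s k - s‖ := by
        rw [P_norm, ho'.1, one_mul]
      have h3 : ‖P o' ⟨k, h⟩ s - P o ⟨k, h⟩ s‖ ≤ η * ‖s‖ := by
        rw [P_apply, P_apply, ← L_sub, L_norm, R_norm]
        exact mul_le_mul_of_nonneg_right (hη _) (norm_nonneg _)
      rw [h1, norm_smul]
      have h4 := norm_add₃_le (a := E o' s k - s) (b := P o' ⟨k, h⟩ (E o' s k - s))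
        (c := P o' ⟨k, h⟩ s - P o ⟨k, h⟩ s)
      rw [h2] at h4
      have h5 : ‖(1 / 2 : ℝ)‖ = 1 / 2 := by norm_num
      rw [h5]
      push_cast
      nlinarith [norm_nonneg s]
    · refine ih.trans ?_
      push_cast
      have := mul_nonneg hη0 (norm_nonneg s)
      nlinarith

lemma E_ne_zero (o o' : Fin 7 → EuclideanSpace ℝ (Fin 9)) (ho' : Orthonormal ℝ o')
    (s : V) (hs : Lin o s) (hs0 : s ≠ 0) (hη : ∀ j, ‖o' j - o j‖ ≤ 1 / 4) :
    E o' s 7 ≠ 0 := by
  intro h
  have h1 := E_close o o' ho' s hs (1 / 4) hη 7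
  rw [h, zero_sub, norm_neg] at h1
  have h2 : 0 < ‖s‖ := norm_pos_iff.2 hs0
  norm_num at h1
  linarith

lemma E_continuousOn {X : Type*} [TopologicalSpace X] (S : Set X)
    (o : Fin 7 → X → EuclideanSpace ℝ (Fin 9)) (ho : ∀ j, ContinuousOn (o j) S) (s : X → V)
    (hs : ContinuousOn s S) (k : ℕ) :
    ContinuousOn (fun x => E (fun j => o j x) (s x) k) S := by
  induction k with
  | zero => exact hs
  | succ k ih =>
    by_cases h : k < 7
    · simp only [E, h, dif_pos]
      refine ContinuousOn.const_smul (ih.add ?_) (1 / 2 : ℝ)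
      simp only [P_apply, L_apply]
      refine continuousOn_finsetSum _ fun i _ => ?_
      have c1 : ContinuousOn (fun x => (o ⟨k, h⟩ x).ofLp i) S :=
        (EuclideanSpace.proj (𝕜 := ℝ) i).continuous.comp_continuousOn (ho _)
      have c2 : ContinuousOn (fun x => Lb i (R (δ (em ⟨k, h⟩)) (E (fun j => o j x) (s x) k))) S :=
        ((Lb i).comp (R (δ (em ⟨k, h⟩)))).continuous_of_finiteDimensional.comp_continuousOn ih
      exact c1.smul c2
    · simp only [E, h, dif_neg, not_false_iff]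
      exact ih

end Pool.Agent.MP_d70b2d_gt
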