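import Mathlib

set_option autoImplicit false
open scoped Manifold

/-!
# MP_d70b2d_gt: the non-orientable flat three-manifold
-/

namespace Pool.Agent.MP_d70b2d_gt

open Topology

/-! ### Charts on the target of a surjective local homeomorphism -/

section General

/-- the charts of the target of a surjective local homeomorphism are its local inverses -/
@[instance_reducible] noncomputable def qtCharted {E M : Type*} [TopologicalSpace E] [TopologicalSpace M] (p : E → M)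
    (hp : IsLocalHomeomorph p) (hs : Function.Surjective p) : ChartedSpace E M where
  atlas := {c | (c.symm : E → M) = p}
  chartAt m := (Classical.choose (hp (Classical.choose (hs m)))).symm
  mem_chart_source m := by
    have h1 := Classical.choose_spec (hs m)
    have h2 := Classical.choose_spec (hp (Classical.choose (hs m)))
    rw [OpenPartialHomeomorph.symm_source]
    have h3 := (Classical.choose (hp (Classical.choose (hs m)))).map_source h2.1
    rw [← h2.2, h1] at h3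
    exact h3
  chart_mem_atlas m := by
    have h2 := Classical.choose_spec (hp (Classical.choose (hs m)))
    show ((Classical.choose (hp (Classical.choose (hs m)))).symm.symm : E → M) = p
    rw [OpenPartialHomeomorph.symm_symm]
    exact h2.2.symm

variable {E : Type*} [NormedAddCommGroup E] [NormedSpace ℝ E] {M : Type*} [TopologicalSpace M]

/-- the transition functions are smooth if the deck transformations are -/
theorem qtManifold (p : E → M) (hp : IsLocalHomeomorph p) (hs : Function.Surjective p)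
    (hγ : ∀ x y : E, p x = p y → ∃ γ : E → E, ContDiff ℝ ((⊤ : ℕ∞) : WithTop ℕ∞) γ ∧ γ x = y ∧
      ∀ z, p (γ z) = p z) :
    letI := qtCharted p hp hs
    IsManifold 𝓘(ℝ, E) ((⊤ : ℕ∞) : WithTop ℕ∞) M := by
  letI := qtCharted p hp hs
  refine isManifold_of_contDiffOn _ _ _ ?_
  intro e e' he he'
  have he1 : (e.symm : E → M) = p := he
  have he1' : (e'.symm : E → M) = p := he'
  simp only [modelWithCornersSelf_coe, modelWithCornersSelf_coe_symm, Function.id_comp,
    Function.comp_id, Set.preimage_id_eq, id_eq, Set.range_id, Set.inter_univ]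
  intro x hx
  apply ContDiffAt.contDiffWithinAt
  rw [OpenPartialHomeomorph.trans_source, OpenPartialHomeomorph.symm_source] at hx
  obtain ⟨hx1, hx2⟩ := hx
  have hx2' : e.symm x ∈ e'.source := hx2
  rw [he1] at hx2'
  -- the value of the transition function
  have hval : p x = p (e' (p x)) := by
    have := e'.left_inv hx2'
    rw [he1'] at this
    exact this.symm
  obtain ⟨γ, hγ1, hγ2, hγ3⟩ := hγ x (e' (p x)) hval
  have hopen : ∀ᶠ z in 𝓝 x, γ z ∈ e'.target := by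
    have hc : ContinuousAt γ x := hγ1.continuous.continuousAt
    apply hc.eventually
    rw [hγ2]
    exact e'.open_target.mem_nhds (e'.map_source hx2')
  refine hγ1.contDiffAt.congr_of_eventuallyEq ?_
  filter_upwards [hopen] with z hz
  show e' (e.symm z) = γ z
  rw [he1, ← hγ3 z]
  have := e'.right_inv hz
  rw [he1'] at this
  exact this

/-- the local homeomorphism is smooth -/
theorem qtSmooth (p : E → M) (hp : IsLocalHomeomorph p) (hs : Function.Surjective p)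
    (hγ : ∀ x y : E, p x = p y → ∃ γ : E → E, ContDiff ℝ ((⊤ : ℕ∞) : WithTop ℕ∞) γ ∧ γ x = y ∧
      ∀ z, p (γ z) = p z) :
    letI := qtCharted p hp hs
    ContMDiff 𝓘(ℝ, E) 𝓘(ℝ, E) ((⊤ : ℕ∞) : WithTop ℕ∞) p ∧
      ∀ x, Function.Injective (mfderiv 𝓘(ℝ, E) 𝓘(ℝ, E) p x) := by
  letI := qtCharted p hp hs
  haveI : IsManifold 𝓘(ℝ, E) ((⊤ : ℕ∞) : WithTop ℕ∞) M := qtManifold p hp hs hγ
  have hex : ∀ x : E, ∃ e : OpenPartialHomeomorph M E,
      e ∈ IsManifold.maximalAtlas 𝓘(ℝ, E) ((⊤ : ℕ∞) : WithTop ℕ∞) M ∧ x ∈ e.target ∧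
        (e.symm : E → M) = p := by
    intro x
    obtain ⟨c, hc1, hc2⟩ := hp x
    refine ⟨c.symm, ?_, hc1, ?_⟩
    · apply IsManifold.subset_maximalAtlas
      show (c.symm.symm : E → M) = p
      rw [OpenPartialHomeomorph.symm_symm]
      exact hc2.symm
    · rw [OpenPartialHomeomorph.symm_symm]
      exact hc2.symm
  have hsm : ContMDiff 𝓘(ℝ, E) 𝓘(ℝ, E) ((⊤ : ℕ∞) : WithTop ℕ∞) p := by
    intro x
    obtain ⟨e, he1, he2, he3⟩ := hex x
    rw [← he3]
    exact contMDiffAt_symm_of_mem_maximalAtlas he1 he2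
  refine ⟨hsm, ?_⟩
  intro x
  obtain ⟨e, he1, he2, he3⟩ := hex x
  have hpx : p x ∈ e.source := by
    rw [← he3]
    exact e.map_target he2
  have hes : ContMDiffAt 𝓘(ℝ, E) 𝓘(ℝ, E) ((⊤ : ℕ∞) : WithTop ℕ∞) e (p x) :=
    contMDiffAt_of_mem_maximalAtlas he1 hpx
  have h1 : MDifferentiableAt 𝓘(ℝ, E) 𝓘(ℝ, E) e (p x) :=
    hes.mdifferentiableAt (by simp)
  have h2 : MDifferentiableAt 𝓘(ℝ, E) 𝓘(ℝ, E) p x :=
    (hsm x).mdifferentiableAt (by simp)
  have h3 : (e ∘ p) =ᶠ[𝓝 x] id := by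
    filter_upwards [e.open_target.mem_nhds he2] with z hz
    have := e.right_inv hz
    rw [he3] at this
    exact this
  have h4 : mfderiv 𝓘(ℝ, E) 𝓘(ℝ, E) (e ∘ p) x = ContinuousLinearMap.id ℝ (TangentSpace 𝓘(ℝ, E) x) := by
    rw [h3.mfderiv_eq]
    exact mfderiv_id
  rw [mfderiv_comp x h1 h2] at h4
  intro u w huw
  have h5 : ∀ v, (mfderiv 𝓘(ℝ, E) 𝓘(ℝ, E) e (p x)) (mfderiv 𝓘(ℝ, E) 𝓘(ℝ, E) p x v) = v := by
    intro v
    have := congrArg (fun T => T v) h4
    exact this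
  rw [← h5 u, ← h5 w, huw]

end General

/-! ### The flat manifold -/

section Flat

/-- `ℝ³` -/
abbrev QtE : Type := EuclideanSpace ℝ (Fin 3)

/-- the sign `(-1) ^ m` -/
def qtc (m : ℤ) : ℤ := if Even m then 1 else -1

theorem qtc_zero : qtc 0 = 1 := by simp [qtc]

theorem qtc_add (m n : ℤ) : qtc (m + n) = qtc m * qtc n := by
  unfold qtc
  by_cases hm : Even m <;> by_cases hn : Even n <;> simp [Int.even_add, hm, hn]

theorem qtc_neg (m : ℤ) : qtc (-m) = qtc m := by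
  unfold qtc
  simp

theorem qtc_sq (m : ℤ) : qtc m * qtc m = 1 := by
  unfold qtc
  by_cases hm : Even m <;> simp [hm]

theorem qtc_cos (m : ℤ) : Real.cos (Real.pi * m) = (qtc m : ℝ) := by
  rw [mul_comm, Real.cos_int_mul_pi]
  unfold qtc
  by_cases hm : Even m
  · simp [hm, hm.neg_one_zpow]
  · rw [if_neg hm, (Int.not_even_iff_odd.mp hm).neg_one_zpow]
    simp

/-- the elements of the group `Γ` -/
noncomputable def qtγ (m n k : ℤ) (X : QtE) : QtE := !₂[X 0 + m, qtc m * X 1 + n, X 2 + k]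

@[simp] theorem qtγ_0 (m n k : ℤ) (X : QtE) : qtγ m n k X 0 = X 0 + m := rfl
@[simp] theorem qtγ_1 (m n k : ℤ) (X : QtE) : qtγ m n k X 1 = qtc m * X 1 + n := rfl
@[simp] theorem qtγ_2 (m n k : ℤ) (X : QtE) : qtγ m n k X 2 = X 2 + k := rfl

theorem qtE_ext {X Y : QtE} (h0 : X 0 = Y 0) (h1 : X 1 = Y 1) (h2 : X 2 = Y 2) : X = Y := by
  ext i
  fin_cases i
  · exact h0
  · exact h1
  · exact h2

theorem qtγ_contDiff (m n k : ℤ) : ContDiff ℝ ((⊤ : ℕ∞) : WithTop ℕ∞) (qtγ m n k) := by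
  rw [contDiff_euclidean]
  have hc : ∀ i : Fin 3, ContDiff ℝ ((⊤ : ℕ∞) : WithTop ℕ∞) (fun X : QtE => X i) := by
    intro i
    exact (contDiff_euclidean.mp contDiff_id) i
  intro i
  fin_cases i
  · exact (hc 0).add contDiff_const
  · exact (contDiff_const.mul (hc 1)).add contDiff_const
  · exact (hc 2).add contDiff_const

/-- the orbit relation -/
def qtR (X Y : QtE) : Prop := ∃ m n k : ℤ, Y = qtγ m n k X

theorem qtR_refl (X : QtE) : qtR X X :=
  ⟨0, 0, 0, qtE_ext (by simp) (by simp [qtc_zero]) (by simp)⟩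

theorem qtR_symm {X Y : QtE} (h : qtR X Y) : qtR Y X := by
  obtain ⟨m, n, k, rfl⟩ := h
  refine ⟨-m, -(qtc m * n), -k, qtE_ext ?_ ?_ ?_⟩
  · simp
  · simp only [qtγ_1, qtc_neg]
    have h := qtc_sq m
    have h' : (qtc m : ℝ) * qtc m = 1 := by exact_mod_cast h
    push_cast
    linear_combination (-(X 1)) * h'
  · simp

theorem qtR_trans {X Y Z : QtE} (h1 : qtR X Y) (h2 : qtR Y Z) : qtR X Z := by
  obtain ⟨m, n, k, rfl⟩ := h1
  obtain ⟨m', n', k', rfl⟩ := h2
  refine ⟨m + m', qtc m' * n + n', k + k', qtE_ext ?_ ?_ ?_⟩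
  · simp; ring
  · simp only [qtγ_1, qtc_add]
    push_cast
    ring
  · simp; ring

/-- the setoid -/
def qtS : Setoid QtE where
  r := qtR
  iseqv := ⟨qtR_refl, qtR_symm, qtR_trans⟩

/-- the manifold -/
def QM : Type := Quotient qtS

instance : TopologicalSpace QM := inferInstanceAs (TopologicalSpace (Quotient qtS))

/-- the projection -/
def qtp : QtE → QM := Quotient.mk qtS

theorem qtp_eq {X Y : QtE} : qtp X = qtp Y ↔ qtR X Y := Quotient.eq (r := qtS)

theorem qtp_surj : Function.Surjective qtp := Quotient.mk_surjective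

theorem qtp_cont : Continuous qtp := continuous_quotient_mk'

theorem qtp_quot : IsQuotientMap qtp := isQuotientMap_quotient_mk'

theorem qtp_γ (m n k : ℤ) (X : QtE) : qtp (qtγ m n k X) = qtp X :=
  (qtp_eq.mpr ⟨m, n, k, rfl⟩).symm

theorem qtp_open : IsOpenMap qtp := by
  intro U hU
  rw [← qtp_quot.isOpen_preimage]
  have : qtp ⁻¹' (qtp '' U) = ⋃ m : ℤ, ⋃ n : ℤ, ⋃ k : ℤ, (qtγ m n k) ⁻¹' U := by
    ext X
    simp only [Set.mem_preimage, Set.mem_image, Set.mem_iUnion]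
    constructor
    · rintro ⟨Y, hY, h⟩
      obtain ⟨m, n, k, hmnk⟩ := qtR_symm (qtp_eq.mp h)
      exact ⟨m, n, k, hmnk ▸ hY⟩
    · rintro ⟨m, n, k, h⟩
      exact ⟨_, h, qtp_γ m n k X⟩
  rw [this]
  exact isOpen_iUnion fun m => isOpen_iUnion fun n => isOpen_iUnion fun k =>
    hU.preimage (qtγ_contDiff m n k).continuous

/-- a nontrivial element of the group moves every point by at least one -/
theorem qtR_dist {X Y : QtE} (h : qtR X Y) (hd : dist X Y < 1) : X = Y := by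
  obtain ⟨m, n, k, rfl⟩ := h
  have hsq : dist X (qtγ m n k X) ^ 2 < 1 := by
    have := dist_nonneg (x := X) (y := qtγ m n k X)
    nlinarith
  rw [EuclideanSpace.dist_eq, Real.sq_sqrt (by positivity), Fin.sum_univ_three] at hsq
  simp only [qtγ_0, qtγ_1, qtγ_2, Real.dist_eq, sq_abs] at hsq
  have hm : m = 0 := by
    have h1 : ((m : ℝ)) ^ 2 < 1 := by
      have e : X 0 - (X 0 + (m : ℝ)) = - (m : ℝ) := by ring
      rw [e, neg_sq] at hsq
      nlinarith [sq_nonneg (X 1 - (qtc m * X 1 + n)), sq_nonneg (X 2 - (X 2 + k))]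
    have h2 : m ^ 2 < 1 := by exact_mod_cast h1
    nlinarith [sq_nonneg m, Int.one_le_abs (z := m), abs_mul_abs_self m]
  subst hm
  simp only [qtc_zero, Int.cast_one, one_mul, Int.cast_zero, add_zero, sub_self] at hsq
  have hn : n = 0 := by
    have h1 : ((n : ℝ)) ^ 2 < 1 := by
      have e : X 1 - (X 1 + (n : ℝ)) = - (n : ℝ) := by ring
      rw [e, neg_sq] at hsq
      nlinarith [sq_nonneg (X 2 - (X 2 + k))]
    have h2 : n ^ 2 < 1 := by exact_mod_cast h1
    nlinarith [sq_nonneg n, Int.one_le_abs (z := n), abs_mul_abs_self n]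
  have hk : k = 0 := by
    have h1 : ((k : ℝ)) ^ 2 < 1 := by
      have e : X 2 - (X 2 + (k : ℝ)) = - (k : ℝ) := by ring
      rw [e, neg_sq] at hsq
      nlinarith [sq_nonneg (X 1 - (X 1 + n))]
    have h2 : k ^ 2 < 1 := by exact_mod_cast h1
    nlinarith [sq_nonneg k, Int.one_le_abs (z := k), abs_mul_abs_self k]
  subst hn hk
  exact qtE_ext (by simp) (by simp [qtc_zero]) (by simp)

theorem qtp_locHomeo : IsLocalHomeomorph qtp := by
  rw [isLocalHomeomorph_iff_isOpenEmbedding_restrict]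
  intro X
  refine ⟨Metric.ball X (1 / 2), Metric.ball_mem_nhds X (by norm_num), ?_⟩
  apply IsOpenEmbedding.of_continuous_injective_isOpenMap
  · exact qtp_cont.comp continuous_subtype_val
  · rintro ⟨Y, hY⟩ ⟨Z, hZ⟩ h
    apply Subtype.ext
    refine qtR_dist (qtp_eq.mp h) ?_
    have h1 : dist Y X < 1 / 2 := hY
    have h2 : dist Z X < 1 / 2 := hZ
    have := dist_triangle_right Y Z X
    linarith
  · exact qtp_open.domRestrict Metric.isOpen_ball

instance : T2Space QM := by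
  rw [t2Space_iff_of_isOpenQuotientMap (π := qtp) ⟨qtp_surj, qtp_cont, qtp_open⟩]
  have hset : {q : QtE × QtE | qtp q.1 = qtp q.2} =
      (fun q : QtE × QtE => q.2 0 - q.1 0) ⁻¹' (Set.range ((↑) : ℤ → ℝ)) ∩
      ((fun q : QtE × QtE => q.2 2 - q.1 2) ⁻¹' (Set.range ((↑) : ℤ → ℝ)) ∩
      (fun q : QtE × QtE => q.2 1 - Real.cos (Real.pi * (q.2 0 - q.1 0)) * q.1 1) ⁻¹'
        (Set.range ((↑) : ℤ → ℝ))) := by
    ext ⟨X, Y⟩
    simp only [Set.mem_ofPred_eq, Set.mem_inter_iff, Set.mem_preimage, Set.mem_range]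
    rw [qtp_eq]
    constructor
    · rintro ⟨m, n, k, rfl⟩
      refine ⟨⟨m, by simp⟩, ⟨k, by simp⟩, ⟨n, ?_⟩⟩
      simp only [qtγ_0, qtγ_1, add_sub_cancel_left, qtc_cos]
    · rintro ⟨⟨m, hm⟩, ⟨k, hk⟩, ⟨n, hn⟩⟩
      rw [← hm, qtc_cos] at hn
      exact ⟨m, n, k, qtE_ext (by simp; linarith) (by simp; linarith) (by simp; linarith)⟩
  rw [hset]
  have hZ : IsClosed (Set.range ((↑) : ℤ → ℝ)) := Int.isClosedEmbedding_coe_real.isClosed_range
  have hc : ∀ i : Fin 3, Continuous (fun X : QtE => X i) := fun i =>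
    ((contDiff_euclidean (n := 0)).mp contDiff_id i).continuous
  have h1 : ∀ i : Fin 3, Continuous (fun q : QtE × QtE => q.1 i) := fun i => (hc i).comp continuous_fst
  have h2 : ∀ i : Fin 3, Continuous (fun q : QtE × QtE => q.2 i) := fun i => (hc i).comp continuous_snd
  refine (hZ.preimage ((h2 0).sub (h1 0))).inter ((hZ.preimage ((h2 2).sub (h1 2))).inter
    (hZ.preimage ((h2 1).sub ((Real.continuous_cos.comp
      (continuous_const.mul ((h2 0).sub (h1 0)))).mul (h1 1)))))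

instance : CompactSpace QM := by
  rw [← isCompact_univ_iff]
  have : (Set.univ : Set QM) = qtp '' Metric.closedBall 0 2 := by
    symm
    rw [Set.eq_univ_iff_forall]
    intro q
    obtain ⟨X, rfl⟩ := qtp_surj q
    set m : ℤ := -⌊X 0⌋ with hm
    set n : ℤ := -⌊(qtc m : ℝ) * X 1⌋ with hn
    set k : ℤ := -⌊X 2⌋ with hk
    refine ⟨qtγ m n k X, ?_, qtp_γ m n k X⟩
    rw [mem_closedBall_zero_iff, EuclideanSpace.norm_eq, Fin.sum_univ_three]
    simp only [qtγ_0, qtγ_1, qtγ_2, Real.norm_eq_abs, sq_abs]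
    rw [Real.sqrt_le_left (by norm_num)]
    have hf : ∀ t : ℝ, (t + ((-⌊t⌋ : ℤ) : ℝ)) ^ 2 ≤ 1 := by
      intro t
      push_cast
      have h1 := Int.floor_le t
      have h2 := Int.lt_floor_add_one t
      nlinarith
    have h0 := hf (X 0)
    have h1 := hf ((qtc m : ℝ) * X 1)
    have h2 := hf (X 2)
    rw [← hm] at h0
    rw [← hn] at h1
    rw [← hk] at h2
    linarith
  rw [this]
  exact (isCompact_closedBall 0 2).image qtp_cont

theorem qtp_deck (X Y : QtE) (h : qtp X = qtp Y) : ∃ γ : QtE → QtE,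
    ContDiff ℝ ((⊤ : ℕ∞) : WithTop ℕ∞) γ ∧ γ X = Y ∧ ∀ z, qtp (γ z) = qtp z := by
  obtain ⟨m, n, k, rfl⟩ := qtp_eq.mp h
  exact ⟨qtγ m n k, qtγ_contDiff m n k, rfl, qtp_γ m n k⟩

noncomputable instance : ChartedSpace QtE QM := qtCharted qtp qtp_locHomeo qtp_surj

instance : IsManifold (𝓡 3) ((⊤ : ℕ∞) : WithTop ℕ∞) QM :=
  qtManifold qtp qtp_locHomeo qtp_surj qtp_deck

theorem qtp_smooth : ContMDiff (𝓡 3) (𝓡 3) ((⊤ : ℕ∞) : WithTop ℕ∞) qtp :=
  (qtSmooth qtp qtp_locHomeo qtp_surj qtp_deck).1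

theorem qtp_inj (x : QtE) : Function.Injective (mfderiv (𝓡 3) (𝓡 3) qtp x) :=
  (qtSmooth qtp qtp_locHomeo qtp_surj qtp_deck).2 x

end Flat

/-- Apply the universal statement to the closed non-orientable flat manifold
`M = ℝ³ / Γ`, `Γ` generated by `(x, y, z) ↦ (x + 1, -y, z)`, `(x, y + 1, z)`, `(x, y, z + 1)`
(Klein bottle times circle), and pull the totally skew map back to `ℝ³`.

Proof.  `M := Quotient r` with `r X Y ↔ ∃ m n k : ℤ, Y 0 = X 0 + m ∧ Y 1 = (-1) ^ m * X 1 + n ∧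
Y 2 = X 2 + k`; `p := Quotient.mk r`.
* `p` is an open quotient map; `T2` by `t2Space_iff_of_isOpenQuotientMap`: the relation is closed,
  it says `Y 0 - X 0 ∈ ℤ`, `Y 2 - X 2 ∈ ℤ`, `Y 1 - cos (π (Y 0 - X 0)) * X 1 ∈ ℤ`.
* compact: image of `[0,1]³`.
* `p` is injective on balls of radius `1/4` (a nontrivial element of `Γ` moves every point by at
  least `1`); charts: inverses of `p` restricted to such balls; the transition functions coincide
  locally with elements of `Γ`, which are affine.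
* `p` is `ContMDiff` with injective `mfderiv` (chart ∘ p is locally the identity), so
  `h := f ∘ p` has the stated properties (`fderiv h X u = mfderiv f (p X) (mfderiv p X u)`). -/
theorem exists_periodic_skew
    (hall : ∀ (M : Type) [TopologicalSpace M] [T2Space M] [CompactSpace M]
      [ChartedSpace (EuclideanSpace ℝ (Fin 3)) M]
      [IsManifold (𝓡 3) ((⊤ : ℕ∞) : WithTop ℕ∞) M],
      ∃ f : M → EuclideanSpace ℝ (Fin 9),
        ContMDiff (𝓡 3) 𝓘(ℝ, EuclideanSpace ℝ (Fin 9)) ((⊤ : ℕ∞) : WithTop ℕ∞) f ∧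
        (∀ x y : M, x ≠ y →
          ∀ (a : TangentSpace (𝓡 3) x) (b : TangentSpace (𝓡 3) y) (t : ℝ),
            t • (f x - f y)
              + id (α := EuclideanSpace ℝ (Fin 9))
                  (mfderiv (𝓡 3) 𝓘(ℝ, EuclideanSpace ℝ (Fin 9)) f x a)
              = id (α := EuclideanSpace ℝ (Fin 9))
                  (mfderiv (𝓡 3) 𝓘(ℝ, EuclideanSpace ℝ (Fin 9)) f y b) →
            t = 0 ∧ a = 0 ∧ b = 0)) :
    ∃ h : EuclideanSpace ℝ (Fin 3) → EuclideanSpace ℝ (Fin 9),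
      ContDiff ℝ 1 h ∧
      (∀ X Y : EuclideanSpace ℝ (Fin 3), Y 0 = X 0 + 1 → Y 1 = - X 1 → Y 2 = X 2 → h Y = h X) ∧
      (∀ X Y : EuclideanSpace ℝ (Fin 3), X ≠ Y → dist X Y < 1 →
        ∀ (t : ℝ) (u w : EuclideanSpace ℝ (Fin 3)),
          t • (h X - h Y) + fderiv ℝ h X u = fderiv ℝ h Y w → t = 0 ∧ u = 0 ∧ w = 0) := by
  obtain ⟨f, hf, hskew⟩ := hall QM
  have hcomp : ContMDiff (𝓡 3) 𝓘(ℝ, EuclideanSpace ℝ (Fin 9)) ((⊤ : ℕ∞) : WithTop ℕ∞) (f ∘ qtp) :=
    hf.comp qtp_smooth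
  have hcd : ContDiff ℝ ((⊤ : ℕ∞) : WithTop ℕ∞) (f ∘ qtp) := contMDiff_iff_contDiff.mp hcomp
  refine ⟨f ∘ qtp, hcd.of_le (by exact_mod_cast le_top), ?_, ?_⟩
  · intro X Y h0 h1 h2
    show f (qtp Y) = f (qtp X)
    congr 1
    symm
    rw [qtp_eq]
    refine ⟨1, 0, 0, qtE_ext ?_ ?_ ?_⟩
    · simp [h0]
    · simp [h1, qtc]
    · simp [h2]
  · intro X Y hXY hd t u w heq
    have hne : qtp X ≠ qtp Y := fun h => hXY (qtR_dist (qtp_eq.mp h) hd)
    have hder : ∀ Z v : QtE, fderiv ℝ (f ∘ qtp) Z v =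
        mfderiv (𝓡 3) 𝓘(ℝ, EuclideanSpace ℝ (Fin 9)) f (qtp Z) (mfderiv (𝓡 3) (𝓡 3) qtp Z v) := by
      intro Z v
      have h1 : MDifferentiableAt (𝓡 3) 𝓘(ℝ, EuclideanSpace ℝ (Fin 9)) f (qtp Z) :=
        (hf (qtp Z)).mdifferentiableAt (by simp)
      have h2 : MDifferentiableAt (𝓡 3) (𝓡 3) qtp Z := (qtp_smooth Z).mdifferentiableAt (by simp)
      have h3 := mfderiv_comp Z h1 h2
      rw [mfderiv_eq_fderiv] at h3
      rw [h3]
      rfl
    rw [hder X u, hder Y w] at heq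
    obtain ⟨ht, ha, hb⟩ := hskew (qtp X) (qtp Y) hne (mfderiv (𝓡 3) (𝓡 3) qtp X u)
      (mfderiv (𝓡 3) (𝓡 3) qtp Y w) t heq
    refine ⟨ht, ?_, ?_⟩
    · exact qtp_inj X (ha.trans (map_zero (mfderiv (𝓡 3) (𝓡 3) qtp X)).symm)
    · exact qtp_inj Y (hb.trans (map_zero (mfderiv (𝓡 3) (𝓡 3) qtp Y)).symm)

end Pool.Agent.MP_d70b2d_gt
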